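import Pool.Agent.Q271.HB.Main

/-!
# Hamiltonian homeomorphisms of the ball: normal subgroups
-/

set_option autoImplicit false

open Set Filter Topology Function

namespace Pool.Agent.Q271.HB

open Pool.Agent.Y453.HB Pool.Agent.Y496.HB

variable {n : ℕ}

/-- conjugation by a dilation -/
noncomputable def lam (r : ℝ) (hr : 0 < r) (hr1 : r < 1) : HamBar n →* HamBar n where
  toFun φ := ⟨copy 0 r hr φ, mem_iff'.2 (copy_mem hr (by rw [N_zero, zero_add]; exact hr1)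
    (mem_iff'.1 φ.2))⟩
  map_one' := by
    apply Subtype.ext
    change copy 0 r hr (1 : E n ≃ₜ E n) = 1
    unfold copy
    group
  map_mul' φ ψ := Subtype.ext (copy_mul 0 r hr _ _)

theorem lam_isCopy {r : ℝ} (hr : 0 < r) (hr1 : r < 1) (φ : HamBar n) :
    IsCopy 0 r φ (lam r hr hr1 φ) := (isCopy_iff hr).2 rfl

theorem lam_mem {r : ℝ} (hr : 0 < r) (hr1 : r < 1) (φ : HamBar n) : lam r hr hr1 φ ∈ Loc 0 r :=
  ⟨φ, lam_isCopy hr hr1 φ⟩

theorem lam_surj {r : ℝ} (hr : 0 < r) (hr1 : r < 1) {g : HamBar n} (h : g ∈ Loc 0 r) :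
    ∃ φ, lam r hr hr1 φ = g := by
  obtain ⟨φ, hφ⟩ := h
  exact ⟨φ, (lam_isCopy hr hr1 φ).unique hr hφ⟩

theorem lam_loc {r s : ℝ} (hr : 0 < r) (hr1 : r < 1) (hs : 0 < s) {g : HamBar n}
    (h : g ∈ Loc 0 s) : lam r hr hr1 g ∈ Loc 0 (r * s) := by
  obtain ⟨φ, hφ⟩ := h
  refine ⟨φ, (isCopy_iff (mul_pos hr hs)).2 ?_⟩
  change copy 0 r hr (g : E n ≃ₜ E n) = _
  rw [(isCopy_iff hs).1 hφ, copy_copy]
  refine copy_congr _ _ ?_ rfl _
  rw [smul_zero, add_zero]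

/-- the normal closure of the copy in the ball with radius `r` -/
def Fr (n : ℕ) (r : ℝ) : Subgroup (HamBar n) := Subgroup.normalClosure (Loc (0 : E n) r : Set (HamBar n))

instance (r : ℝ) : (Fr n r).Normal := Subgroup.normalClosure_normal

theorem Loc_le_Fr (r : ℝ) : Loc 0 r ≤ Fr n r := Subgroup.subset_normalClosure

theorem Fr_le {r : ℝ} {M : Subgroup (HamBar n)} [M.Normal] (h : Loc 0 r ≤ M) : Fr n r ≤ M :=
  Subgroup.normalClosure_le_normal h

theorem Fr_mono {r s : ℝ} (hr : 0 < r) (h : r ≤ s) : Fr n r ≤ Fr n s :=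
  Fr_le ((Loc_mono' hr h).trans (Loc_le_Fr s))

theorem Fr_comap {r s : ℝ} (hr : 0 < r) (hr1 : r < 1) (hs : 0 < s) :
    Fr n s ≤ (Fr n (r * s)).comap (lam r hr hr1) := by
  apply Fr_le
  intro g hg
  exact Loc_le_Fr _ (lam_loc hr hr1 hs hg)

theorem Fr_mul {r s : ℝ} (hr : 0 < r) (hr1 : r < 1) (hs : 0 < s) (h1 : Fr n r = ⊤)
    (h2 : Fr n s = ⊤) : Fr n (r * s) = ⊤ := by
  have h3 := Fr_comap (n := n) hr hr1 hs
  rw [h2] at h3
  have h4 : Loc 0 r ≤ Fr n (r * s) := by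
    intro g hg
    obtain ⟨φ, rfl⟩ := lam_surj hr hr1 hg
    exact h3 (Subgroup.mem_top φ)
  rw [eq_top_iff, ← h1]
  exact Fr_le h4

theorem Fr_pow {r : ℝ} (hr : 0 < r) (hr1 : r < 1) (h1 : Fr n r = ⊤) (k : ℕ) :
    Fr n (r ^ (k + 1)) = ⊤ := by
  induction k with
  | zero => rwa [zero_add, pow_one]
  | succ k ih =>
    rw [pow_succ']
    exact Fr_mul hr hr1 (pow_pos hr _) h1 ih

theorem Fr_all {r : ℝ} (hr : 0 < r) (hr1 : r < 1) (h1 : Fr n r = ⊤) {s : ℝ} (hs : 0 < s) :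
    Fr n s = ⊤ := by
  obtain ⟨k, hk⟩ := exists_pow_lt_of_lt_one hs hr1
  rw [eq_top_iff, ← Fr_pow hr hr1 h1 k]
  refine Fr_mono (pow_pos hr _) ?_
  calc r ^ (k + 1) ≤ r ^ k := pow_le_pow_of_le_one hr.le hr1.le (Nat.le_succ k)
    _ ≤ s := hk.le

/-- two elements of a copy which do not commute -/
theorem not_comm (hn : 0 < n) {r : ℝ} (hr : 0 < r) (hr1 : r < 1) :
    ∃ a ∈ Loc (0 : E n) r, ∃ b ∈ Loc (0 : E n) r, a * b ≠ b * a := by
  suffices h : ∃ a b : HamBar n, a * b ≠ b * a by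
    obtain ⟨a, b, h⟩ := h
    refine ⟨lam r hr hr1 a, lam_mem hr hr1 a, lam r hr hr1 b, lam_mem hr hr1 b, fun h1 => h ?_⟩
    rw [← map_mul, ← map_mul] at h1
    have h2 := lam_isCopy hr hr1 (a * b)
    rw [h1] at h2
    exact h2.unique' hr (lam_isCopy hr hr1 (b * a))
  obtain ⟨φ, hφ⟩ := exists_ne_one (n := n) hn
  obtain ⟨p, hp⟩ := exists_N (n := n) hn (show (0 : ℝ) ≤ 1 / 2 by norm_num)
  have h0 : N (0 : E n) + 1 / 8 < 1 := by rw [N_zero]; norm_num
  have h1 : N p + 1 / 8 < 1 := by rw [hp]; norm_num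
  obtain ⟨g, hg⟩ := move' (n := n) (r := 1 / 8) (by norm_num) h0 h1
  obtain ⟨a, ha⟩ := exists_copy (by norm_num) h0 φ
  obtain ⟨b, hb⟩ := exists_copy (by norm_num) h1 φ
  refine ⟨g, a, fun hc => hφ ?_⟩
  have h2 := hg φ a b ha hb
  rw [hc] at h2
  have h3 : b = a := by rw [h2]; group
  have h4 := Loc_supp (by norm_num) ⟨φ, ha⟩
  have h5 := Loc_supp (by norm_num) ⟨φ, hb⟩
  rw [h3] at h5
  have h6 : a = 1 := by
    refine Subtype.ext (Homeomorph.ext fun x => ?_)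
    by_cases hx : N (x - 0) < 1 / 8
    · apply h5
      simp only [mem_setOf_eq, not_lt]
      have h7 := N_sub x (x - p)
      rw [sub_sub_cancel, hp] at h7
      rw [sub_zero] at hx
      linarith
    · exact h4 x hx
  rw [h6] at ha
  exact ha.unique' (by norm_num) IsCopy.one

theorem commutator_ne_bot (hn : 0 < n) : commutator (HamBar n) ≠ ⊥ := by
  intro h
  obtain ⟨a, -, b, -, hab⟩ := not_comm hn (n := n) (r := 1 / 2) (by norm_num) (by norm_num)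
  have h1 : a * b * a⁻¹ * b⁻¹ ∈ commutator (HamBar n) :=
    Subgroup.commutator_mem_commutator (Subgroup.mem_top a) (Subgroup.mem_top b)
  rw [h, Subgroup.mem_bot] at h1
  apply hab
  calc a * b = (a * b * a⁻¹ * b⁻¹) * (b * a) := by group
    _ = b * a := by rw [h1, one_mul]

theorem Fr_ne_bot (hn : 0 < n) {r : ℝ} (hr : 0 < r) (hr1 : r < 1) : Fr n r ≠ ⊥ := by
  intro h
  obtain ⟨a, ha, b, hb, hab⟩ := not_comm hn (n := n) hr hr1
  have h1 := Loc_le_Fr r ha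
  rw [h, Subgroup.mem_bot] at h1
  apply hab
  rw [h1]
  group

/-- the criterion -/
theorem simple_of (hn : 0 < n) (hp : commutator (HamBar n) = ⊤) {r₀ : ℝ} (hr₀ : 0 < r₀)
    (hr₁ : r₀ < 1) (hF : Fr n r₀ = ⊤) (M : Subgroup (HamBar n)) (hM : M.Normal) (hM1 : M ≠ ⊥) :
    M = ⊤ := by
  obtain ⟨ρ, hρ, h⟩ := commutators M hM1
  set r := min ρ (1 / 2) with hr
  have hr0 : 0 < r := lt_min hρ (by norm_num)
  have hr1 : r < 1 := (min_le_right _ _).trans_lt (by norm_num)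
  have h1 : commutator (HamBar n) ≤ M.comap (lam r hr0 hr1) := by
    rw [commutator_def, Subgroup.commutator_le]
    intro a _ b _
    rw [Subgroup.mem_comap, commutatorElement_def, map_mul, map_mul, map_mul, map_inv, map_inv]
    exact h r hr0 (min_le_left _ _) 0 (by rw [N_zero]; linarith) _ (lam_mem hr0 hr1 a) _
      (lam_mem hr0 hr1 b)
  rw [hp] at h1
  rw [eq_top_iff, ← Fr_all hr₀ hr₁ hF hr0]
  apply Fr_le
  intro g hg
  obtain ⟨φ, rfl⟩ := lam_surj hr0 hr1 hg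
  exact h1 (Subgroup.mem_top φ)

theorem inv_commutator {r : ℝ} (hr : 0 < r) (hr1 : r < 1) :
    commutator (HamBar n) ≤ (commutator (HamBar n)).comap (lam r hr hr1) := by
  conv_lhs => rw [commutator_def]
  rw [Subgroup.commutator_le]
  intro a _ b _
  rw [Subgroup.mem_comap, commutatorElement_def, map_mul, map_mul, map_mul, map_inv, map_inv]
  exact Subgroup.commutator_mem_commutator (Subgroup.mem_top _) (Subgroup.mem_top _)

theorem inv_Fr {r s : ℝ} (hr : 0 < r) (hr1 : r < 1) (hs : 0 < s) :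
    Fr n s ≤ (Fr n s).comap (lam r hr hr1) := by
  refine (Fr_comap hr hr1 hs).trans (Subgroup.comap_mono (Fr_mono (mul_pos hr hs) ?_))
  calc r * s ≤ 1 * s := mul_le_mul_of_nonneg_right hr1.le hs.le
    _ = s := one_mul s

theorem inter (hn : 0 < n) (M M' : Subgroup (HamBar n)) (hM : M.Normal) (hM' : M'.Normal)
    (h : M ≠ ⊥) (h' : M' ≠ ⊥) : M ⊓ M' ≠ ⊥ := by
  obtain ⟨ρ, hρ, h1⟩ := commutators M h
  obtain ⟨ρ', hρ', h1'⟩ := commutators M' h'
  set r := min (min ρ ρ') (1 / 2) with hr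
  have hr0 : 0 < r := lt_min (lt_min hρ hρ') (by norm_num)
  have hr1 : r < 1 := (min_le_right _ _).trans_lt (by norm_num)
  have hN : N (0 : E n) + r < 1 := by rw [N_zero]; linarith
  obtain ⟨a, ha, b, hb, hab⟩ := not_comm hn (n := n) hr0 hr1
  intro hc
  have h2 : a * b * a⁻¹ * b⁻¹ ∈ M ⊓ M' :=
    ⟨h1 r hr0 ((min_le_left _ _).trans (min_le_left _ _)) 0 hN a ha b hb,
      h1' r hr0 ((min_le_left _ _).trans (min_le_right _ _)) 0 hN a ha b hb⟩
  rw [hc, Subgroup.mem_bot] at h2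
  apply hab
  calc a * b = (a * b * a⁻¹ * b⁻¹) * (b * a) := by group
    _ = b * a := by rw [h2, one_mul]

end Pool.Agent.Q271.HB
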