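import Pool.Agent.Q271.HB.GLoc

/-!
# Groups of Hamiltonian homeomorphisms of the ball: normal subgroups
-/

set_option autoImplicit false

open Set Filter Topology Function

namespace Pool.Agent.Q271.HB.Gen

open Pool.Agent.Y453.HB Pool.Agent.Y496.HB

variable {n : ℕ} {𝒢 : Subgroup (E n ≃ₜ E n)}

/-- conjugation by a dilation -/
noncomputable def lam (hG : Good 𝒢) (r : ℝ) (hr : 0 < r) (hr1 : r < 1) : 𝒢 →* 𝒢 where
  toFun φ := ⟨copy 0 r hr φ, hG.dil r hr hr1 φ φ.2⟩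
  map_one' := by
    apply Subtype.ext
    change copy 0 r hr (1 : E n ≃ₜ E n) = 1
    unfold copy
    group
  map_mul' φ ψ := Subtype.ext (copy_mul 0 r hr _ _)

theorem lam_isCopy (hG : Good 𝒢) {r : ℝ} (hr : 0 < r) (hr1 : r < 1) (φ : 𝒢) :
    IsCopy 0 r φ (lam hG r hr hr1 φ) := (isCopy_iff hr).2 rfl

theorem lam_mem (hG : Good 𝒢) {r : ℝ} (hr : 0 < r) (hr1 : r < 1) (φ : 𝒢) :
    lam hG r hr hr1 φ ∈ Loc 0 r :=
  ⟨φ, lam_isCopy hG hr hr1 φ⟩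

theorem lam_surj (hG : Good 𝒢) {r : ℝ} (hr : 0 < r) (hr1 : r < 1) {g : 𝒢} (h : g ∈ Loc 0 r) :
    ∃ φ, lam hG r hr hr1 φ = g := by
  obtain ⟨φ, hφ⟩ := h
  exact ⟨φ, (lam_isCopy hG hr hr1 φ).unique hr hφ⟩

theorem lam_loc (hG : Good 𝒢) {r s : ℝ} (hr : 0 < r) (hr1 : r < 1) (hs : 0 < s) {g : 𝒢}
    (h : g ∈ Loc 0 s) : lam hG r hr hr1 g ∈ Loc 0 (r * s) := by
  obtain ⟨φ, hφ⟩ := h
  refine ⟨φ, (isCopy_iff (mul_pos hr hs)).2 ?_⟩
  change copy 0 r hr (g : E n ≃ₜ E n) = _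
  rw [(isCopy_iff hs).1 hφ, copy_copy]
  refine copy_congr _ _ ?_ rfl _
  rw [smul_zero, add_zero]

/-- the normal closure of the copy in the ball with radius `r` -/
def Fr (𝒢 : Subgroup (E n ≃ₜ E n)) (r : ℝ) : Subgroup 𝒢 :=
  Subgroup.normalClosure ((Loc (0 : E n) r : Subgroup 𝒢) : Set 𝒢)

instance (r : ℝ) : (Fr 𝒢 r).Normal := Subgroup.normalClosure_normal

theorem Loc_le_Fr (r : ℝ) : Loc 0 r ≤ Fr 𝒢 r := Subgroup.subset_normalClosure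

theorem Fr_le {r : ℝ} {M : Subgroup 𝒢} [M.Normal] (h : Loc 0 r ≤ M) : Fr 𝒢 r ≤ M :=
  Subgroup.normalClosure_le_normal h

theorem Fr_mono (hG : Good 𝒢) {r s : ℝ} (hr : 0 < r) (h : r ≤ s) : Fr 𝒢 r ≤ Fr 𝒢 s :=
  Fr_le ((Loc_mono' hG hr h).trans (Loc_le_Fr s))

theorem Fr_comap (hG : Good 𝒢) {r s : ℝ} (hr : 0 < r) (hr1 : r < 1) (hs : 0 < s) :
    Fr 𝒢 s ≤ (Fr 𝒢 (r * s)).comap (lam hG r hr hr1) := by
  apply Fr_le
  intro g hg
  exact Loc_le_Fr _ (lam_loc hG hr hr1 hs hg)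

theorem Fr_mul (hG : Good 𝒢) {r s : ℝ} (hr : 0 < r) (hr1 : r < 1) (hs : 0 < s) (h1 : Fr 𝒢 r = ⊤)
    (h2 : Fr 𝒢 s = ⊤) : Fr 𝒢 (r * s) = ⊤ := by
  have h3 := Fr_comap hG hr hr1 hs
  rw [h2] at h3
  have h4 : Loc 0 r ≤ Fr 𝒢 (r * s) := by
    intro g hg
    obtain ⟨φ, rfl⟩ := lam_surj hG hr hr1 hg
    exact h3 (Subgroup.mem_top φ)
  rw [eq_top_iff, ← h1]
  exact Fr_le h4

theorem Fr_pow (hG : Good 𝒢) {r : ℝ} (hr : 0 < r) (hr1 : r < 1) (h1 : Fr 𝒢 r = ⊤) (k : ℕ) :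
    Fr 𝒢 (r ^ (k + 1)) = ⊤ := by
  induction k with
  | zero => rwa [zero_add, pow_one]
  | succ k ih =>
    rw [pow_succ']
    exact Fr_mul hG hr hr1 (pow_pos hr _) h1 ih

theorem Fr_all (hG : Good 𝒢) {r : ℝ} (hr : 0 < r) (hr1 : r < 1) (h1 : Fr 𝒢 r = ⊤) {s : ℝ}
    (hs : 0 < s) : Fr 𝒢 s = ⊤ := by
  obtain ⟨k, hk⟩ := exists_pow_lt_of_lt_one hs hr1
  rw [eq_top_iff, ← Fr_pow hG hr hr1 h1 k]
  refine Fr_mono hG (pow_pos hr _) ?_
  calc r ^ (k + 1) ≤ r ^ k := pow_le_pow_of_le_one hr.le hr1.le (Nat.le_succ k)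
    _ ≤ s := hk.le

/-- there are nontrivial elements -/
theorem exists_ne_one (hG : Good 𝒢) (hn : 0 < n) : ∃ φ : 𝒢, φ ≠ 1 := by
  obtain ⟨p, hp⟩ := exists_N (n := n) hn (show (0 : ℝ) ≤ 1 / 4 by norm_num)
  obtain ⟨T, hT, hT'⟩ := hG.trans p (r := 1 / 4) (by norm_num) (by rw [hp]; norm_num)
  refine ⟨⟨T, hT⟩, fun h => ?_⟩
  have h1 : T = 1 := congrArg Subtype.val h
  have h2 := hT' 0 (by rw [N_zero]; norm_num)
  rw [h1, add_zero] at h2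
  have h3 : (0 : E n) = p := h2
  rw [← h3, N_zero] at hp
  norm_num at hp

/-- two elements of a copy which do not commute -/
theorem not_comm (hG : Good 𝒢) (hn : 0 < n) {r : ℝ} (hr : 0 < r) (hr1 : r < 1) :
    ∃ a ∈ (Loc (0 : E n) r : Subgroup 𝒢), ∃ b ∈ (Loc (0 : E n) r : Subgroup 𝒢),
      a * b ≠ b * a := by
  suffices h : ∃ a b : 𝒢, a * b ≠ b * a by
    obtain ⟨a, b, h⟩ := h
    refine ⟨lam hG r hr hr1 a, lam_mem hG hr hr1 a, lam hG r hr hr1 b, lam_mem hG hr hr1 b,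
      fun h1 => h ?_⟩
    rw [← map_mul, ← map_mul] at h1
    have h2 := lam_isCopy hG hr hr1 (a * b)
    rw [h1] at h2
    exact h2.unique' hr (lam_isCopy hG hr hr1 (b * a))
  obtain ⟨φ, hφ⟩ := exists_ne_one hG hn
  obtain ⟨p, hp⟩ := exists_N (n := n) hn (show (0 : ℝ) ≤ 1 / 2 by norm_num)
  have h0 : N (0 : E n) + 1 / 8 < 1 := by rw [N_zero]; norm_num
  have h1 : N p + 1 / 8 < 1 := by rw [hp]; norm_num
  obtain ⟨g, hg⟩ := move' hG (r := 1 / 8) (by norm_num) h0 h1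
  obtain ⟨a, ha⟩ := exists_copy hG (by norm_num) h0 φ
  obtain ⟨b, hb⟩ := exists_copy hG (by norm_num) h1 φ
  refine ⟨g, a, fun hc => hφ ?_⟩
  have h2 := hg φ a b ha hb
  rw [hc] at h2
  have h3 : b = a := by rw [h2]; group
  have h4 := Loc_supp hG (by norm_num) ⟨φ, ha⟩
  have h5 := Loc_supp hG (by norm_num) ⟨φ, hb⟩
  rw [h3] at h5
  have h6 : a = 1 := by
    refine Subtype.ext (Homeomorph.ext fun x => ?_)
    by_cases hx : N (x - 0) < 1 / 8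
    · apply h5
      simp only [mem_setOf_eq, not_lt]
      have h7 := N_sub x (x - p)
      rw [sub_sub_cancel, hp] at h7
      rw [sub_zero] at hx
      linarith
    · exact h4 x hx
  rw [h6] at ha
  exact ha.unique' (by norm_num) IsCopy.one

theorem commutator_ne_bot (hG : Good 𝒢) (hn : 0 < n) : commutator 𝒢 ≠ ⊥ := by
  intro h
  obtain ⟨a, -, b, -, hab⟩ := not_comm hG hn (r := 1 / 2) (by norm_num) (by norm_num)
  have h1 : a * b * a⁻¹ * b⁻¹ ∈ commutator 𝒢 :=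
    Subgroup.commutator_mem_commutator (Subgroup.mem_top a) (Subgroup.mem_top b)
  rw [h, Subgroup.mem_bot] at h1
  apply hab
  calc a * b = (a * b * a⁻¹ * b⁻¹) * (b * a) := by group
    _ = b * a := by rw [h1, one_mul]

theorem Fr_ne_bot (hG : Good 𝒢) (hn : 0 < n) {r : ℝ} (hr : 0 < r) (hr1 : r < 1) :
    Fr 𝒢 r ≠ ⊥ := by
  intro h
  obtain ⟨a, ha, b, hb, hab⟩ := not_comm hG hn hr hr1
  have h1 := Loc_le_Fr r ha
  rw [h, Subgroup.mem_bot] at h1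
  apply hab
  rw [h1]
  group

/-- the commutators of the group, copied to a small ball, are in every nontrivial normal subgroup -/
theorem copy_commutators (hG : Good 𝒢) (M : Subgroup 𝒢) (hM : M.Normal) (hM1 : M ≠ ⊥) :
    ∃ ρ : ℝ, 0 < ρ ∧ ∀ r, 0 < r → r ≤ ρ → ∀ q : E n, N q + r < 1 → ∀ φ ∈ commutator 𝒢, ∀ g,
      IsCopy q r φ g → g ∈ M := by
  obtain ⟨ρ, hρ, h⟩ := commutators hG M hM1
  refine ⟨min ρ (1 / 2), lt_min hρ (by norm_num), fun r hr0 hrρ q hq φ hφ g hg => ?_⟩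
  have hr1 : r < 1 := (hrρ.trans (min_le_right _ _)).trans_lt (by norm_num)
  have h1 : commutator 𝒢 ≤ M.comap (lam hG r hr0 hr1) := by
    rw [commutator_def, Subgroup.commutator_le]
    intro a _ b _
    rw [Subgroup.mem_comap, commutatorElement_def, map_mul, map_mul, map_mul, map_inv, map_inv]
    exact h r hr0 (hrρ.trans (min_le_left _ _)) 0 (by rw [N_zero]; linarith) _
      (lam_mem hG hr0 hr1 a) _ (lam_mem hG hr0 hr1 b)
  obtain ⟨τ, hτ⟩ := move' hG (p := 0) hr0 (by rw [N_zero]; linarith) hq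
  rw [hτ φ _ g (lam_isCopy hG hr0 hr1 φ) hg]
  exact hM.conj_mem _ (h1 hφ) τ

/-- the criterion -/
theorem simple_of (hG : Good 𝒢) (hp : commutator 𝒢 = ⊤) {r₀ : ℝ} (hr₀ : 0 < r₀)
    (hr₁ : r₀ < 1) (hF : Fr 𝒢 r₀ = ⊤) (M : Subgroup 𝒢) (hM : M.Normal) (hM1 : M ≠ ⊥) :
    M = ⊤ := by
  obtain ⟨ρ, hρ, h⟩ := copy_commutators hG M hM hM1
  set r := min ρ (1 / 2) with hr
  have hr0 : 0 < r := lt_min hρ (by norm_num)
  have hr1 : r < 1 := (min_le_right _ _).trans_lt (by norm_num)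
  rw [eq_top_iff, ← Fr_all hG hr₀ hr₁ hF hr0]
  apply Fr_le
  intro g hg
  obtain ⟨φ, hφ⟩ := hg
  exact h r hr0 (min_le_left _ _) 0 (by rw [N_zero]; linarith) φ
    (by rw [hp]; exact Subgroup.mem_top φ) g hφ

theorem inv_commutator (hG : Good 𝒢) {r : ℝ} (hr : 0 < r) (hr1 : r < 1) :
    commutator 𝒢 ≤ (commutator 𝒢).comap (lam hG r hr hr1) := by
  conv_lhs => rw [commutator_def]
  rw [Subgroup.commutator_le]
  intro a _ b _
  rw [Subgroup.mem_comap, commutatorElement_def, map_mul, map_mul, map_mul, map_inv, map_inv]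
  exact Subgroup.commutator_mem_commutator (Subgroup.mem_top _) (Subgroup.mem_top _)

theorem inv_Fr (hG : Good 𝒢) {r s : ℝ} (hr : 0 < r) (hr1 : r < 1) (hs : 0 < s) :
    Fr 𝒢 s ≤ (Fr 𝒢 s).comap (lam hG r hr hr1) := by
  refine (Fr_comap hG hr hr1 hs).trans (Subgroup.comap_mono (Fr_mono hG (mul_pos hr hs) ?_))
  calc r * s ≤ 1 * s := mul_le_mul_of_nonneg_right hr1.le hs.le
    _ = s := one_mul s

theorem inter (hG : Good 𝒢) (hn : 0 < n) (M M' : Subgroup 𝒢) (hM : M.Normal) (hM' : M'.Normal)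
    (h : M ≠ ⊥) (h' : M' ≠ ⊥) : M ⊓ M' ≠ ⊥ := by
  obtain ⟨ρ, hρ, h1⟩ := commutators hG M h
  obtain ⟨ρ', hρ', h1'⟩ := commutators hG M' h'
  set r := min (min ρ ρ') (1 / 2) with hr
  have hr0 : 0 < r := lt_min (lt_min hρ hρ') (by norm_num)
  have hr1 : r < 1 := (min_le_right _ _).trans_lt (by norm_num)
  have hN : N (0 : E n) + r < 1 := by rw [N_zero]; linarith
  obtain ⟨a, ha, b, hb, hab⟩ := not_comm hG hn hr0 hr1
  intro hc
  have h2 : a * b * a⁻¹ * b⁻¹ ∈ M ⊓ M' :=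
    ⟨h1 r hr0 ((min_le_left _ _).trans (min_le_left _ _)) 0 hN a ha b hb,
      h1' r hr0 ((min_le_left _ _).trans (min_le_right _ _)) 0 hN a ha b hb⟩
  rw [hc, Subgroup.mem_bot] at h2
  apply hab
  calc a * b = (a * b * a⁻¹ * b⁻¹) * (b * a) := by group
    _ = b * a := by rw [h2, one_mul]

end Pool.Agent.Q271.HB.Gen
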