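import Pool.Agent.Q271.HB.Hameo

/-!
# Groups of Hamiltonian homeomorphisms of the ball: fragmentation into round balls
-/

set_option autoImplicit false

open Set Filter Topology Function

namespace Pool.Agent.Q271.HB.Gen

open Pool.Agent.Y453.HB Pool.Agent.Y496.HB

variable {n : ℕ} {𝒢 : Subgroup (E n ≃ₜ E n)}

/-- the copy in a ball, as a homomorphism -/
noncomputable def cop (hG : Good 𝒢) (q : E n) (r : ℝ) (hr : 0 < r) (h : N q + r < 1) :
    𝒢 →* 𝒢 where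
  toFun φ := ⟨copy q r hr φ, hG.copy_mem hr h φ.2⟩
  map_one' := Subtype.ext (copy_one q r hr)
  map_mul' φ ψ := Subtype.ext (copy_mul q r hr _ _)

theorem cop_isCopy (hG : Good 𝒢) {q : E n} {r : ℝ} (hr : 0 < r) (h : N q + r < 1) (φ : 𝒢) :
    IsCopy q r φ (cop hG q r hr h φ) := (isCopy_iff hr).2 rfl

/-- the elements of the copies in the balls with radius `r` -/
def Frs (𝒢 : Subgroup (E n ≃ₜ E n)) (r : ℝ) : Set 𝒢 := {g | ∃ q : E n, N q + r < 1 ∧ g ∈ Loc q r}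

theorem frs_mul (hG : Good 𝒢) {r s : ℝ} (hr : 0 < r) (hs : 0 < s)
    (h1 : Subgroup.closure (Frs 𝒢 r) = ⊤) (h2 : Subgroup.closure (Frs 𝒢 s) = ⊤) :
    Subgroup.closure (Frs 𝒢 (r * s)) = ⊤ := by
  rw [eq_top_iff, ← h1, Subgroup.closure_le]
  rintro g ⟨q, hq, φ, hφ⟩
  have h3 : Subgroup.closure (Frs 𝒢 s) ≤
      (Subgroup.closure (Frs 𝒢 (r * s))).comap (cop hG q r hr hq) := by
    rw [Subgroup.closure_le]
    rintro a ⟨p, hp, ψ, hψ⟩
    refine Subgroup.subset_closure ⟨q + r • p, ?_, ψ, (isCopy_iff (mul_pos hr hs)).2 ?_⟩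
    · have h4 := N_add q (r • p)
      rw [N_smul hr.le] at h4
      have h5 : r * (N p + s) < r * 1 := mul_lt_mul_of_pos_left hp hr
      linarith
    · change copy q r hr (a : E n ≃ₜ E n) = _
      rw [(isCopy_iff hs).1 hψ, copy_copy]
  rw [h2] at h3
  have h4 : g = cop hG q r hr hq φ := hφ.unique hr (cop_isCopy hG hr hq φ)
  rw [h4]
  exact h3 (Subgroup.mem_top φ)

theorem frs_pow (hG : Good 𝒢) {r : ℝ} (hr : 0 < r) (h1 : Subgroup.closure (Frs 𝒢 r) = ⊤) (k : ℕ) :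
    Subgroup.closure (Frs 𝒢 (r ^ (k + 1))) = ⊤ := by
  induction k with
  | zero => rwa [zero_add, pow_one]
  | succ k ih =>
    rw [pow_succ']
    exact frs_mul hG hr (pow_pos hr _) h1 ih

/-- the values on the copies in the balls with a given radius do not depend on the centre -/
theorem AbScale.chain (hG : Good 𝒢) {Γ : Type} [Group Γ] {c : 𝒢 →* Γ} {ρ : ℝ} (h : AbScale c ρ)
    {r : ℝ} (hr : 0 < r) (hrρ : r < ρ) {v : E n} (hv : N v + r < 1) {φ a b : 𝒢}
    (ha : IsCopy 0 r φ a) (hb : IsCopy v r φ b) : c b = c a := by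
  set η := min (ρ - r) (1 - N v - r) with hη
  have hη0 : 0 < η := lt_min (by linarith) (by linarith)
  have hη1 : η ≤ ρ - r := min_le_left _ _
  have hη2 : η ≤ 1 - N v - r := min_le_right _ _
  obtain ⟨k, hk⟩ := exists_nat_gt (2 / η)
  have hk0 : (0 : ℝ) < k := lt_trans (by positivity) hk
  have hkη : 1 / (k : ℝ) < η / 2 := by
    rw [div_lt_iff₀ hk0]
    rw [div_lt_iff₀ hη0] at hk
    linarith
  have hv1 : N v < 1 := by linarith
  have hNi : ∀ i : ℕ, i ≤ k → N (((i : ℝ) / k) • v) ≤ N v := by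
    intro i hi
    rw [N_smul (by positivity)]
    have h1 : (i : ℝ) / k ≤ 1 := (div_le_one hk0).2 (by exact_mod_cast hi)
    calc (i : ℝ) / k * N v ≤ 1 * N v := mul_le_mul_of_nonneg_right h1 (N_nonneg v)
      _ = N v := one_mul _
  have key : ∀ i : ℕ, i ≤ k → ∀ b, IsCopy (((i : ℝ) / k) • v) r φ b → c b = c a := by
    intro i
    induction i with
    | zero =>
      intro _ b hb
      rw [Nat.cast_zero, zero_div, zero_smul] at hb
      rw [hb.unique hr ha]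
    | succ i ih =>
      intro hi b hb
      obtain ⟨b', hb'⟩ := exists_copy hG (p := ((i : ℝ) / k) • v) hr (by
        have := hNi i (by omega)
        linarith) φ
      rw [← ih (by omega) b' hb']
      refine (h.move hG (R := r + η / 2) hr ?_ (by linarith) ?_ hb' hb).symm
      · have h1 : (((i + 1 : ℕ) : ℝ) / k) • v - ((i : ℝ) / k) • v = (1 / (k : ℝ)) • v := by
          rw [← sub_smul]
          congr 1
          push_cast
          ring
        rw [h1, N_smul (by positivity)]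
        have h2 : 1 / (k : ℝ) * N v ≤ 1 / (k : ℝ) * 1 :=
          mul_le_mul_of_nonneg_left hv1.le (by positivity)
        linarith
      · have := hNi i (by omega)
        linarith
  have h1 := key k le_rfl b
  rw [div_self hk0.ne', one_smul] at h1
  exact h1 hb

/-- if the group is generated by the copies in the balls of one radius, all its nontrivial normal
subgroups contain the commutators -/
theorem comm_le (hG : Good 𝒢) {r : ℝ} (hr : 0 < r) (hr1 : r < 1)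
    (h1 : Subgroup.closure (Frs 𝒢 r) = ⊤) (M : Subgroup 𝒢) (hM : M.Normal) (hM1 : M ≠ ⊥) :
    commutator 𝒢 ≤ M := by
  obtain ⟨ρ, hρ, h⟩ := exists_abScale (QuotientGroup.mk' M) hG (fun hi => hM1 (by
    rw [← QuotientGroup.ker_mk' M]
    exact (MonoidHom.ker_eq_bot_iff _).2 hi))
  obtain ⟨k, hk⟩ := exists_pow_lt_of_lt_one hρ hr1
  have hs : 0 < r ^ (k + 1) := pow_pos hr _
  have hsρ : r ^ (k + 1) < ρ :=
    (pow_le_pow_of_le_one hr.le hr1.le (Nat.le_succ k)).trans_lt hk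
  have hs1 : r ^ (k + 1) < 1 := pow_lt_one₀ hr.le hr1 (Nat.succ_ne_zero k)
  have h2 := frs_pow hG hr h1 k
  set s := r ^ (k + 1) with hsd
  have h3 : ∀ g : 𝒢, ∃ a ∈ (Loc (0 : E n) s : Subgroup 𝒢),
      (QuotientGroup.mk' M) g = (QuotientGroup.mk' M) a := by
    have h4 : Subgroup.closure (Frs 𝒢 s) ≤
        ((Loc (0 : E n) s : Subgroup 𝒢).map (QuotientGroup.mk' M)).comap
          (QuotientGroup.mk' M) := by
      rw [Subgroup.closure_le]
      rintro g ⟨q, hq, φ, hφ⟩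
      obtain ⟨a, ha⟩ := exists_copy hG hs (show N (0 : E n) + s < 1 by
        rw [N_zero]
        linarith) φ
      exact ⟨a, ⟨φ, ha⟩, (h.chain hG hs hsρ hq ha hφ).symm⟩
    rw [h2] at h4
    intro g
    obtain ⟨a, ha, hga⟩ := h4 (Subgroup.mem_top g)
    exact ⟨a, ha, hga.symm⟩
  rw [commutator_def, Subgroup.commutator_le]
  intro a _ b _
  obtain ⟨a', ha', h5⟩ := h3 a
  obtain ⟨b', hb', h6⟩ := h3 b
  rw [← QuotientGroup.ker_mk' M, MonoidHom.mem_ker, map_commutatorElement, h5, h6,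
    commutatorElement_eq_one_iff_mul_comm]
  exact h s hs hsρ.le 0 (by rw [N_zero]; linarith) a' ha' b' hb'

/-- normal subgroups of the group of all Hamiltonian homeomorphisms -/
theorem meets (hG : Good 𝒢) (M : Subgroup (HamBar n)) [M.Normal] (hM1 : M ≠ ⊥) :
    ∃ ρ : ℝ, 0 < ρ ∧ ∀ r, 0 < r → r ≤ ρ → ∀ q : E n, N q + r < 1 →
      ∀ a ∈ (Loc q r : Subgroup 𝒢), ∀ b ∈ (Loc q r : Subgroup 𝒢),
        ∃ h ∈ M, (h : E n ≃ₜ E n) = ((a * b * a⁻¹ * b⁻¹ : 𝒢) : E n ≃ₜ E n) := by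
  obtain ⟨ρ, hρ, h⟩ := HB.commutators M hM1
  refine ⟨ρ, hρ, fun r hr hrρ q hq a ha b hb => ?_⟩
  obtain ⟨φ, hφ⟩ := ha
  obtain ⟨ψ, hψ⟩ := hb
  exact ⟨_, h r hr hrρ q hq ⟨a, hG.le a.2⟩ ⟨⟨φ, hG.le φ.2⟩, hφ⟩ ⟨b, hG.le b.2⟩
    ⟨⟨ψ, hG.le ψ.2⟩, hψ⟩, rfl⟩

theorem meets' (hG : Good 𝒢) (hn : 0 < n) (M : Subgroup (HamBar n)) (hM : M.Normal)
    (hM1 : M ≠ ⊥) : M.comap (Subgroup.inclusion hG.le) ≠ ⊥ := by
  obtain ⟨ρ, hρ, h⟩ := meets hG M hM1
  set r := min ρ (1 / 2) with hr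
  have hr0 : 0 < r := lt_min hρ (by norm_num)
  have hr1 : r < 1 := (min_le_right _ _).trans_lt (by norm_num)
  obtain ⟨a, ha, b, hb, hab⟩ := not_comm hG hn hr0 hr1
  obtain ⟨w, hw, hw'⟩ := h r hr0 (min_le_left _ _) 0 (by rw [N_zero]; linarith) a ha b hb
  intro hc
  have h2 : a * b * a⁻¹ * b⁻¹ ∈ M.comap (Subgroup.inclusion hG.le) := by
    rw [Subgroup.mem_comap]
    have h3 : Subgroup.inclusion hG.le (a * b * a⁻¹ * b⁻¹) = w := Subtype.ext hw'.symm
    rwa [h3]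
  rw [hc, Subgroup.mem_bot] at h2
  apply hab
  calc a * b = (a * b * a⁻¹ * b⁻¹) * (b * a) := by group
    _ = b * a := by rw [h2, one_mul]

end Pool.Agent.Q271.HB.Gen
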