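import Pool.Agent.Q271.HB.Crit

/-!
# Hamiltonian homeomorphisms of the ball: homomorphisms to groups with the chain condition on
centralizers
-/

set_option autoImplicit false

open Set Filter Topology Function

namespace Pool.Agent.Q271.HB

open Pool.Agent.Y453.HB Pool.Agent.Y496.HB

variable {n : ℕ}

/-- the chain condition on centralizers -/
def MC (Γ : Type) [Group Γ] : Prop := ∀ S : ℕ → Set Γ, Antitone S →
  ∃ m, ∀ k, m ≤ k → Subgroup.centralizer (S k) = Subgroup.centralizer (S m)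

/-- units of finite algebras over Noetherian rings satisfy the chain condition -/
theorem mc_units (k A : Type) [CommRing k] [IsNoetherianRing k] [Ring A] [Algebra k A]
    [Module.Finite k A] : MC Aˣ := by
  intro S hS
  have hN : IsNoetherian k A := isNoetherian_of_isNoetherianRing_of_finite k A
  let V : ℕ →o Submodule k A :=
    { toFun := fun j => Subalgebra.toSubmodule (Subalgebra.centralizer k (Units.val '' S j))
      monotone' := by
        intro i j hij x hx
        have hx' : x ∈ Subalgebra.centralizer k (Units.val '' S i) := hx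
        change x ∈ Subalgebra.centralizer k (Units.val '' S j)
        rw [Subalgebra.mem_centralizer_iff] at hx' ⊢
        rintro _ ⟨u, hu, rfl⟩
        exact hx' _ ⟨u, hS hij hu, rfl⟩ }
  obtain ⟨m, hm⟩ := monotone_stabilizes_iff_noetherian.2 hN V
  refine ⟨m, fun j hj => ?_⟩
  have key : ∀ i (u : Aˣ), u ∈ Subgroup.centralizer (S i) ↔ (u : A) ∈ V i := by
    intro i u
    change _ ↔ (u : A) ∈ Subalgebra.centralizer k (Units.val '' S i)
    rw [Subgroup.mem_centralizer_iff, Subalgebra.mem_centralizer_iff]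
    constructor
    · rintro h _ ⟨v, hv, rfl⟩
      have := congrArg Units.val (h v hv)
      simpa using this
    · intro h v hv
      apply Units.ext
      simpa using h v ⟨v, hv, rfl⟩
  ext u
  rw [key, key, hm j hj]

section hom

variable {Γ : Type} [Group Γ] {c : HamBar n →* Γ}

/-- the scales -/
noncomputable def sc (k : ℕ) : ℝ := (1 / 2) ^ (k + 1)

theorem sc_pos (k : ℕ) : 0 < sc k := by unfold sc; positivity

theorem sc_lt (k : ℕ) : sc k < 1 := by
  unfold sc
  exact pow_lt_one₀ (by norm_num) (by norm_num) (by omega)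

theorem sc_succ (k : ℕ) : sc (k + 1) = sc k / 2 := by
  unfold sc
  rw [pow_succ (1 / 2 : ℝ) (k + 1)]
  ring

theorem sc_anti {i j : ℕ} (h : i ≤ j) : sc j ≤ sc i := by
  unfold sc
  exact pow_le_pow_of_le_one (by norm_num) (by norm_num) (by omega)

theorem sc_small {R : ℝ} (hR : 0 < R) : ∃ k, sc k ≤ R := by
  obtain ⟨k, hk⟩ := exists_pow_lt_of_lt_one hR (show (1 / 2 : ℝ) < 1 by norm_num)
  refine ⟨k, le_trans ?_ hk.le⟩
  unfold sc
  exact pow_le_pow_of_le_one (by norm_num) (by norm_num) (by omega)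

theorem not_injective (hn : 0 < n) (hmc : MC Γ) (c : HamBar n →* Γ) : ¬ Injective c := by
  intro hinj
  obtain ⟨m, hm⟩ := hmc (fun k => c '' (Loc (0 : E n) (sc k) : Set (HamBar n)))
    (fun i j hij => Set.image_mono (Loc_mono' (sc_pos j) (sc_anti hij)))
  have h1 := hm (m + 1) (Nat.le_succ m)
  -- a small ball in the shell
  obtain ⟨v, hv⟩ := exists_N (n := n) hn (show (0 : ℝ) ≤ 3 / 4 * sc m by
    have := sc_pos m
    positivity)
  have hr : 0 < sc m / 8 := by
    have := sc_pos m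
    linarith
  have hv1 : N v + sc m / 8 < 1 := by
    rw [hv]
    linarith [sc_lt m, sc_pos m]
  have hv0 : N (0 : E n) + sc m / 8 < 1 := by
    rw [N_zero]
    linarith [sc_lt m, sc_pos m]
  obtain ⟨a, ha, b, hb, hab⟩ := not_comm hn (n := n) hr (by linarith [sc_lt m, sc_pos m])
  obtain ⟨φ, hφ⟩ := ha
  obtain ⟨ψ, hψ⟩ := hb
  obtain ⟨g, hg⟩ := move' hr hv0 hv1
  obtain ⟨a', ha'⟩ := exists_copy hr hv1 φ
  obtain ⟨b', hb'⟩ := exists_copy hr hv1 ψ
  have h2 : c a' ∈ Subgroup.centralizer (c '' (Loc (0 : E n) (sc (m + 1)) : Set (HamBar n))) := by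
    rw [Subgroup.mem_centralizer_iff]
    rintro _ ⟨w, hw, rfl⟩
    rw [← map_mul, ← map_mul, Loc_comm (sc_pos (m + 1)) hr ?_ hw ⟨φ, ha'⟩]
    rw [zero_sub, N_neg, hv, sc_succ]
    linarith [sc_pos m]
  rw [h1, Subgroup.mem_centralizer_iff] at h2
  have hb2 : b' ∈ Loc (0 : E n) (sc m) := by
    refine Loc_mono (p := v) (r := sc m / 8) hr ?_ ⟨ψ, hb'⟩
    rw [sub_zero, hv]
    linarith [sc_pos m]
  have h3 := h2 (c b') ⟨b', hb2, rfl⟩
  rw [← map_mul, ← map_mul] at h3
  have h4 := hinj h3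
  apply hab
  rw [hg φ a a' hφ ha', hg ψ b b' hψ hb'] at h4
  have h5 : g⁻¹ * (g * b * g⁻¹ * (g * a * g⁻¹)) * g = b * a := by group
  have h6 : g⁻¹ * (g * a * g⁻¹ * (g * b * g⁻¹)) * g = a * b := by group
  rw [← h5, ← h6, h4]

/-- homomorphisms to groups with the chain condition on centralizers -/
theorem central_of_mc (hn : 0 < n) (hmc : MC Γ) (c : HamBar n →* Γ) :
    ∃ R : ℝ, 0 < R ∧ R < 1 ∧
      (∀ r, 0 < r → r ≤ R → ∀ q : E n, N q + r < 1 → ∀ a ∈ Loc q r, ∀ g, c a * c g = c g * c a) ∧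
      ∀ r, 0 < r → r ≤ R → ∀ q q' : E n, N q + r < 1 → N q' + r < 1 → ∀ φ a b,
        IsCopy q r φ a → IsCopy q' r φ b → c a = c b := by
  obtain ⟨ρ, hρ, hab⟩ := exists_abScale c (not_injective hn hmc c)
  obtain ⟨m, hm⟩ := hmc (fun k => c '' (Loc (0 : E n) (sc k) : Set (HamBar n)))
    (fun i j hij => Set.image_mono (Loc_mono' (sc_pos j) (sc_anti hij)))
  have h0 : ∀ a ∈ Loc (0 : E n) (sc m), ∀ g, c a * c g = c g * c a := by
    intro a ha g
    obtain ⟨R, hR, hcen⟩ := hab.central hn hρ g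
    obtain ⟨k, hk⟩ := sc_small hR
    have hk2 : sc (max k m) ≤ R := (sc_anti (le_max_left _ _)).trans hk
    have h1 : c g ∈ Subgroup.centralizer
        (c '' (Loc (0 : E n) (sc (max k m)) : Set (HamBar n))) := by
      rw [Subgroup.mem_centralizer_iff]
      rintro _ ⟨w, hw, rfl⟩
      exact hcen _ (sc_pos _) hk2 _ (mem_Im.2 ⟨w, hw, rfl⟩)
    rw [hm (max k m) (le_max_right _ _), Subgroup.mem_centralizer_iff] at h1
    exact h1 _ ⟨a, ha, rfl⟩
  have hval : ∀ r, 0 < r → r ≤ sc m → ∀ q : E n, N q + r < 1 → ∀ φ a b,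
      IsCopy 0 r φ a → IsCopy q r φ b → c b = c a := by
    intro r hr hrm q hq φ a b ha hb
    obtain ⟨g, hg⟩ := move' hr (show N (0 : E n) + r < 1 by
      rw [N_zero]
      linarith [sc_lt m]) hq
    have h1 := h0 a (Loc_mono' hr hrm ⟨φ, ha⟩) g
    rw [hg φ a b ha hb, map_mul, map_mul, map_inv, ← h1]
    group
  have hz : ∀ r, 0 < r → r ≤ sc m → N (0 : E n) + r < 1 := by
    intro r hr hrm
    rw [N_zero]
    linarith [sc_lt m]
  refine ⟨sc m, sc_pos m, sc_lt m, fun r hr hrm q hq a ha g => ?_,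
    fun r hr hrm q q' hq hq' φ a b ha hb => ?_⟩
  · obtain ⟨φ, hφ⟩ := ha
    obtain ⟨a', ha'⟩ := exists_copy hr (hz r hr hrm) φ
    rw [hval r hr hrm q hq φ a' a ha' hφ]
    exact h0 a' (Loc_mono' hr hrm ⟨φ, ha'⟩) g
  · obtain ⟨a', ha'⟩ := exists_copy hr (hz r hr hrm) φ
    rw [hval r hr hrm q hq φ a' a ha' ha, hval r hr hrm q' hq' φ a' b ha' hb]

end hom

end Pool.Agent.Q271.HB
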