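import Pool.Agent.Q271.HB.GCrit
import Pool.Agent.Q271.HB.Lin

/-!
# Groups of Hamiltonian homeomorphisms of the ball: homomorphisms to groups with the chain
condition on centralizers
-/

set_option autoImplicit false

open Set Filter Topology Function

namespace Pool.Agent.Q271.HB.Gen

open Pool.Agent.Y453.HB Pool.Agent.Y496.HB

variable {n : ℕ} {𝒢 : Subgroup (E n ≃ₜ E n)}

section hom

variable {Γ : Type} [Group Γ] (c : 𝒢 →* Γ)

/-- the homomorphism is commutative on the copies in the balls with radius at most `ρ` -/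
def AbScale (ρ : ℝ) : Prop := ∀ r, 0 < r → r ≤ ρ → ∀ q : E n, N q + r < 1 →
  ∀ a ∈ (Loc q r : Subgroup 𝒢), ∀ b ∈ (Loc q r : Subgroup 𝒢), c a * c b = c b * c a

theorem exists_abScale (hG : Good 𝒢) (h : ¬ Injective c) : ∃ ρ : ℝ, 0 < ρ ∧ AbScale c ρ := by
  have h1 : c.ker ≠ ⊥ := fun h2 => h ((MonoidHom.ker_eq_bot_iff c).1 h2)
  obtain ⟨ρ, hρ, h2⟩ := commutators hG c.ker h1
  refine ⟨ρ, hρ, fun r hr hrρ q hq a ha b hb => ?_⟩
  have h3 := (MonoidHom.mem_ker).1 (h2 r hr hrρ q hq a ha b hb)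
  rw [map_mul, map_mul, map_mul, map_inv, map_inv] at h3
  have h4 : c a * c b = c b * c a := by
    calc c a * c b = (c a * c b * (c a)⁻¹ * (c b)⁻¹) * (c b * c a) := by group
      _ = c b * c a := by rw [h3, one_mul]
  exact h4

variable {c}

theorem AbScale.move (hG : Good 𝒢) {ρ : ℝ} (h : AbScale c ρ) {p q : E n} {r R : ℝ} (hr : 0 < r)
    (hR : N (q - p) + r < R) (hRρ : R ≤ ρ) (hp : N p + R < 1) {φ a b : 𝒢}
    (ha : IsCopy p r φ a) (hb : IsCopy q r φ b) : c a = c b := by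
  have h0 := N_nonneg (q - p)
  have hR0 : 0 < R := by linarith
  obtain ⟨τ, hτ, hτ'⟩ := Q271.HB.Gen.move hG hr hR hp
  have h1 := hτ' φ a b ha hb
  have h2 : a ∈ Loc p R := Loc_mono' hG hr (by linarith) ⟨φ, ha⟩
  have h3 := h R hR0 hRρ p hp τ hτ a h2
  rw [h1, map_mul, map_mul, map_inv, h3]
  group

/-- the image of the copy in the ball with centre `0` -/
def Im (c : 𝒢 →* Γ) (r : ℝ) : Subgroup Γ := (Loc 0 r).map c

theorem mem_Im {r : ℝ} {x : Γ} : x ∈ Im c r ↔ ∃ a ∈ (Loc (0 : E n) r : Subgroup 𝒢), c a = x := Subgroup.mem_map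

theorem Im_mono (hG : Good 𝒢) {r ρ : ℝ} (hr : 0 < r) (h : r ≤ ρ) : Im c r ≤ Im c ρ :=
  Subgroup.map_mono (Loc_mono' hG hr h)

/-- the values on small elements commute with a given value -/
theorem AbScale.central (hG : Good 𝒢) (hn : 0 < n) {ρ : ℝ} (hρ : 0 < ρ) (h : AbScale c ρ) (g : 𝒢) :
    ∃ R : ℝ, 0 < R ∧ ∀ r, 0 < r → r ≤ R → ∀ x ∈ Im c r, x * c g = c g * x := by
  obtain ⟨K, hK, hK1, hK2, -⟩ := hG.mem g
  obtain ⟨η, hη, hη1, hηK⟩ : ∃ η : ℝ, 0 < η ∧ η < 1 ∧ ∀ x ∈ K, N x < 1 - η := by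
    rcases K.eq_empty_or_nonempty with he | he
    · refine ⟨1 / 2, by norm_num, by norm_num, fun x hx => ?_⟩
      rw [he] at hx
      exact absurd hx (Set.notMem_empty x)
    · obtain ⟨y, hy, hy'⟩ := hK.exists_isMaxOn he N_cont.continuousOn
      have h1 : N y < 1 := N_lt_one.2 (hK1 hy)
      have h2 := N_nonneg y
      refine ⟨(1 - N y) / 2, by linarith, by linarith, fun x hx => ?_⟩
      have h3 : N x ≤ N y := hy' hx
      linarith
  set R := min ρ (η / 4) with hR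
  have hR0 : 0 < R := lt_min hρ (by linarith)
  have hRρ : R ≤ ρ := min_le_left _ _
  have hRη : R ≤ η / 4 := min_le_right _ _
  obtain ⟨v, hv⟩ := exists_N (n := n) hn (show (0 : ℝ) ≤ 1 - η / 2 by linarith)
  obtain ⟨k, hk⟩ := exists_nat_gt (2 / R)
  have hk0 : (0 : ℝ) < k := lt_trans (by positivity) hk
  have hkR : 1 / (k : ℝ) < R / 2 := by
    rw [div_lt_iff₀ hk0]
    rw [div_lt_iff₀ hR0] at hk
    linarith
  refine ⟨R / 4, by linarith, fun r hr hrR x hx => ?_⟩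
  obtain ⟨a, ⟨φ, ha⟩, rfl⟩ := mem_Im.1 hx
  -- the chain
  have hNi : ∀ i : ℕ, i ≤ k → N (((i : ℝ) / k) • v) ≤ 1 - η / 2 := by
    intro i hi
    rw [N_smul (by positivity), hv]
    have h1 : (i : ℝ) / k ≤ 1 := (div_le_one hk0).2 (by exact_mod_cast hi)
    have h2 : (0 : ℝ) ≤ 1 - η / 2 := by linarith
    nlinarith
  have key : ∀ i : ℕ, i ≤ k → ∀ b, IsCopy (((i : ℝ) / k) • v) r φ b → c b = c a := by
    intro i
    induction i with
    | zero =>
      intro _ b hb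
      rw [Nat.cast_zero, zero_div, zero_smul] at hb
      rw [hb.unique hr ha]
    | succ i ih =>
      intro hi b hb
      obtain ⟨b', hb'⟩ := exists_copy hG (p := ((i : ℝ) / k) • v) hr (by
        have := hNi i (by omega)
        linarith) φ
      rw [← ih (by omega) b' hb']
      refine (h.move hG (R := R) hr ?_ hRρ ?_ hb' hb).symm
      · have h1 : (((i + 1 : ℕ) : ℝ) / k) • v - ((i : ℝ) / k) • v = (1 / (k : ℝ)) • v := by
          rw [← sub_smul]
          congr 1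
          push_cast
          ring
        rw [h1, N_smul (by positivity), hv]
        have h2 : 1 / (k : ℝ) * (1 - η / 2) ≤ 1 / (k : ℝ) * 1 :=
          mul_le_mul_of_nonneg_left (by linarith) (by positivity)
        linarith
      · have := hNi i (by omega)
        linarith
  obtain ⟨b, hb⟩ := exists_copy hG (p := (((k : ℕ) : ℝ) / k) • v) hr (by
    have := hNi k le_rfl
    linarith) φ
  have h1 := key k le_rfl b hb
  rw [div_self hk0.ne', one_smul] at hb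
  have h2 : b * g = g * b := by
    apply Subtype.ext
    refine comm ?_ (Loc_supp hG hr ⟨φ, hb⟩) (show (g : E n ≃ₜ E n) ∈ fixOff K from hK2)
    rw [Set.disjoint_left]
    intro x hx1 hx2
    have hx1' : N (x - v) < r := hx1
    have hx3 := hηK x hx2
    have hx4 := N_add (v - x) x
    rw [sub_add_cancel, N_sub_comm, hv] at hx4
    linarith
  rw [← h1, ← map_mul, ← map_mul, h2]





theorem not_injective (hG : Good 𝒢) (hn : 0 < n) (hmc : MC Γ) (c : 𝒢 →* Γ) : ¬ Injective c := by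
  intro hinj
  obtain ⟨m, hm⟩ := hmc (fun k => c '' ((Loc (0 : E n) (sc k) : Subgroup 𝒢) : Set 𝒢))
    (fun i j hij => Set.image_mono (Loc_mono' hG (sc_pos j) (sc_anti hij)))
  have h1 := hm (m + 1) (Nat.le_succ m)
  -- a small ball in the shell
  obtain ⟨v, hv⟩ := exists_N (n := n) hn (show (0 : ℝ) ≤ 3 / 4 * sc m by
    have := sc_pos m
    positivity)
  have hr : 0 < sc m / 8 := by
    have := sc_pos m
    linarith
  have hv1 : N v + sc m / 8 < 1 := by
    rw [hv]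
    linarith [sc_lt m, sc_pos m]
  have hv0 : N (0 : E n) + sc m / 8 < 1 := by
    rw [N_zero]
    linarith [sc_lt m, sc_pos m]
  obtain ⟨a, ha, b, hb, hab⟩ := not_comm hG hn hr (by linarith [sc_lt m, sc_pos m])
  obtain ⟨φ, hφ⟩ := ha
  obtain ⟨ψ, hψ⟩ := hb
  obtain ⟨g, hg⟩ := move' hG hr hv0 hv1
  obtain ⟨a', ha'⟩ := exists_copy hG hr hv1 φ
  obtain ⟨b', hb'⟩ := exists_copy hG hr hv1 ψ
  have h2 : c a' ∈ Subgroup.centralizer (c '' ((Loc (0 : E n) (sc (m + 1)) : Subgroup 𝒢) : Set 𝒢)) := by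
    rw [Subgroup.mem_centralizer_iff]
    rintro _ ⟨w, hw, rfl⟩
    rw [← map_mul, ← map_mul, Loc_comm hG (sc_pos (m + 1)) hr ?_ hw ⟨φ, ha'⟩]
    rw [zero_sub, N_neg, hv, sc_succ]
    linarith [sc_pos m]
  rw [h1, Subgroup.mem_centralizer_iff] at h2
  have hb2 : b' ∈ (Loc (0 : E n) (sc m) : Subgroup 𝒢) := by
    refine Loc_mono hG (p := v) (r := sc m / 8) hr ?_ ⟨ψ, hb'⟩
    rw [sub_zero, hv]
    linarith [sc_pos m]
  have h3 := h2 (c b') ⟨b', hb2, rfl⟩
  rw [← map_mul, ← map_mul] at h3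
  have h4 := hinj h3
  apply hab
  rw [hg φ a a' hφ ha', hg ψ b b' hψ hb'] at h4
  have h5 : g⁻¹ * (g * b * g⁻¹ * (g * a * g⁻¹)) * g = b * a := by group
  have h6 : g⁻¹ * (g * a * g⁻¹ * (g * b * g⁻¹)) * g = a * b := by group
  rw [← h5, ← h6, h4]

/-- homomorphisms to groups with the chain condition on centralizers -/
theorem central_of_mc (hG : Good 𝒢) (hn : 0 < n) (hmc : MC Γ) (c : 𝒢 →* Γ) :
    ∃ R : ℝ, 0 < R ∧ R < 1 ∧
      (∀ r, 0 < r → r ≤ R → ∀ q : E n, N q + r < 1 → ∀ a ∈ (Loc q r : Subgroup 𝒢), ∀ g, c a * c g = c g * c a) ∧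
      ∀ r, 0 < r → r ≤ R → ∀ q q' : E n, N q + r < 1 → N q' + r < 1 → ∀ φ a b,
        IsCopy q r φ a → IsCopy q' r φ b → c a = c b := by
  obtain ⟨ρ, hρ, hab⟩ := exists_abScale c hG (not_injective hG hn hmc c)
  obtain ⟨m, hm⟩ := hmc (fun k => c '' ((Loc (0 : E n) (sc k) : Subgroup 𝒢) : Set 𝒢))
    (fun i j hij => Set.image_mono (Loc_mono' hG (sc_pos j) (sc_anti hij)))
  have h0 : ∀ a ∈ (Loc (0 : E n) (sc m) : Subgroup 𝒢), ∀ g, c a * c g = c g * c a := by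
    intro a ha g
    obtain ⟨R, hR, hcen⟩ := hab.central hG hn hρ g
    obtain ⟨k, hk⟩ := sc_small hR
    have hk2 : sc (max k m) ≤ R := (sc_anti (le_max_left _ _)).trans hk
    have h1 : c g ∈ Subgroup.centralizer
        (c '' ((Loc (0 : E n) (sc (max k m)) : Subgroup 𝒢) : Set 𝒢)) := by
      rw [Subgroup.mem_centralizer_iff]
      rintro _ ⟨w, hw, rfl⟩
      exact hcen _ (sc_pos _) hk2 _ (mem_Im.2 ⟨w, hw, rfl⟩)
    rw [hm (max k m) (le_max_right _ _), Subgroup.mem_centralizer_iff] at h1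
    exact h1 _ ⟨a, ha, rfl⟩
  have hval : ∀ r, 0 < r → r ≤ sc m → ∀ q : E n, N q + r < 1 → ∀ φ a b,
      IsCopy 0 r φ a → IsCopy q r φ b → c b = c a := by
    intro r hr hrm q hq φ a b ha hb
    obtain ⟨g, hg⟩ := move' hG hr (show N (0 : E n) + r < 1 by
      rw [N_zero]
      linarith [sc_lt m]) hq
    have h1 := h0 a (Loc_mono' hG hr hrm ⟨φ, ha⟩) g
    rw [hg φ a b ha hb, map_mul, map_mul, map_inv, ← h1]
    group
  have hz : ∀ r, 0 < r → r ≤ sc m → N (0 : E n) + r < 1 := by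
    intro r hr hrm
    rw [N_zero]
    linarith [sc_lt m]
  refine ⟨sc m, sc_pos m, sc_lt m, fun r hr hrm q hq a ha g => ?_,
    fun r hr hrm q q' hq hq' φ a b ha hb => ?_⟩
  · obtain ⟨φ, hφ⟩ := ha
    obtain ⟨a', ha'⟩ := exists_copy hG hr (hz r hr hrm) φ
    rw [hval r hr hrm q hq φ a' a ha' hφ]
    exact h0 a' (Loc_mono' hG hr hrm ⟨φ, ha'⟩) g
  · obtain ⟨a', ha'⟩ := exists_copy hG hr (hz r hr hrm) φ
    rw [hval r hr hrm q hq φ a' a ha' ha, hval r hr hrm q' hq' φ a' b ha' hb]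

end hom

end Pool.Agent.Q271.HB.Gen
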