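import Pool.Agent.Q271.HB.Loc

/-!
# Groups of Hamiltonian homeomorphisms of the ball: the copies of the group in small balls
-/

set_option autoImplicit false

open Set Filter Topology Function

namespace Pool.Agent.Q271.HB.Gen

open Pool.Agent.Y453.HB Pool.Agent.Y496.HB

variable {n : ℕ}

/-- groups of Hamiltonian homeomorphisms which contain the cut off rotations and are invariant under
the dilations -/
structure Good (𝒢 : Subgroup (E n ≃ₜ E n)) : Prop where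
  le : 𝒢 ≤ HamBar n
  rot : ∀ (m : E n) (c : ℝ), 0 < c → N m + c < 1 →
    ∃ R ∈ 𝒢, ∀ x, N (x - m) ≤ c → R x = m + m - x
  dil : ∀ (s : ℝ) (hs : 0 < s), s < 1 → ∀ φ ∈ 𝒢, copy 0 s hs φ ∈ 𝒢

variable {𝒢 : Subgroup (E n ≃ₜ E n)}

theorem Good.mem (hG : Good 𝒢) (φ : 𝒢) : (φ : E n ≃ₜ E n) ∈ hamBar n := mem_iff'.1 (hG.le φ.2)

theorem Good.trans (hG : Good 𝒢) (p : E n) {r : ℝ} (hr : 0 < r) (h : N p + r < 1) :
    ∃ T ∈ 𝒢, ∀ x, N x ≤ r → T x = p + x := by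
  obtain ⟨R₀, h0, h0'⟩ := hG.rot (0 : E n) r hr (by
    rw [N_zero]
    have := N_nonneg p
    linarith)
  have hp2 : N ((1 / 2 : ℝ) • p) = 1 / 2 * N p := N_smul (by norm_num) p
  obtain ⟨R₁, h1, h1'⟩ := hG.rot ((1 / 2 : ℝ) • p) (r + 1 / 2 * N p) (by
    have := N_nonneg p
    linarith) (by rw [hp2]; linarith)
  refine ⟨R₁ * R₀, mul_mem h1 h0, fun x hx => ?_⟩
  rw [mul_apply, h0' x (by rwa [sub_zero]), h1']
  · rw [← add_smul]
    norm_num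
  · rw [add_zero, zero_sub]
    refine (N_sub _ _).trans ?_
    rw [N_neg, hp2]
    linarith

theorem Good.copy_mem (hG : Good 𝒢) {p : E n} {r : ℝ} (hr : 0 < r) (h : N p + r < 1)
    {φ : E n ≃ₜ E n} (hφ : φ ∈ 𝒢) : copy p r hr φ ∈ 𝒢 := by
  obtain ⟨T, hT, hT'⟩ := hG.trans p hr h
  have hr1 : r < 1 := by
    have := N_nonneg p
    linarith
  rw [← conj_trans hr hT' (supp_of_mem (mem_iff'.1 (hG.le hφ)))]
  exact mul_mem (mul_mem hT (hG.dil r hr hr1 φ hφ)) (inv_mem hT)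

/-- the element `g` is the copy of `φ` in the ball with centre `p` and radius `r` -/
def IsCopy (p : E n) (r : ℝ) (φ g : 𝒢) : Prop :=
  ∀ x : E n, (g : E n ≃ₜ E n) (p + r • x) = p + r • (φ : E n ≃ₜ E n) x

theorem isCopy_iff {p : E n} {r : ℝ} (hr : 0 < r) {φ g : 𝒢} :
    IsCopy p r φ g ↔ (g : E n ≃ₜ E n) = copy p r hr φ := by
  constructor
  · intro h
    refine Homeomorph.ext fun x => ?_
    have h1 := h (r⁻¹ • (x - p))
    rw [smul_smul, mul_inv_cancel₀ hr.ne', one_smul, add_sub_cancel] at h1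
    rw [h1, copy_apply']
  · intro h x
    rw [h, copy_apply]

/-- the copy of the group in the ball with centre `p` and radius `r` -/
def Loc (p : E n) (r : ℝ) : Subgroup 𝒢 where
  carrier := {g | ∃ φ, IsCopy p r φ g}
  mul_mem' := by
    rintro a b ⟨φ, hφ⟩ ⟨ψ, hψ⟩
    refine ⟨φ * ψ, fun x => ?_⟩
    change (a : E n ≃ₜ E n) ((b : E n ≃ₜ E n) (p + r • x)) = _
    rw [hψ, hφ]
    rfl
  one_mem' := ⟨1, fun _ => rfl⟩
  inv_mem' := by
    rintro a ⟨φ, hφ⟩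
    refine ⟨φ⁻¹, fun x => ?_⟩
    change (a : E n ≃ₜ E n)⁻¹ (p + r • x) = p + r • (φ : E n ≃ₜ E n)⁻¹ x
    have h1 := hφ ((φ : E n ≃ₜ E n)⁻¹ x)
    rw [apply_inv_self] at h1
    rw [← h1, inv_apply_self]

theorem mem_Loc {p : E n} {r : ℝ} {g : 𝒢} : g ∈ Loc p r ↔ ∃ φ, IsCopy p r φ g := Iff.rfl

theorem exists_copy (hG : Good 𝒢) {p : E n} {r : ℝ} (hr : 0 < r) (h : N p + r < 1) (φ : 𝒢) :
    ∃ g, IsCopy p r φ g :=
  ⟨⟨copy p r hr φ, hG.copy_mem hr h φ.2⟩, (isCopy_iff hr).2 rfl⟩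

theorem IsCopy.unique {p : E n} {r : ℝ} (hr : 0 < r) {φ g g' : 𝒢} (h : IsCopy p r φ g)
    (h' : IsCopy p r φ g') : g = g' :=
  Subtype.ext (((isCopy_iff hr).1 h).trans ((isCopy_iff hr).1 h').symm)

theorem IsCopy.unique' {p : E n} {r : ℝ} (hr : 0 < r) {φ φ' g : 𝒢} (h : IsCopy p r φ g)
    (h' : IsCopy p r φ' g) : φ = φ' := by
  refine Subtype.ext (Homeomorph.ext fun x => ?_)
  have h1 := (h x).symm.trans (h' x)
  have h2 := add_left_cancel h1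
  exact smul_right_injective _ hr.ne' h2

theorem IsCopy.one {p : E n} {r : ℝ} : IsCopy p r (1 : 𝒢) 1 := fun _ => rfl

theorem Loc_mono (hG : Good 𝒢) {p q : E n} {r ρ : ℝ} (hr : 0 < r) (h : N (p - q) + r < ρ) :
    (Loc p r : Subgroup 𝒢) ≤ Loc q ρ := by
  have hρ : 0 < ρ := by
    have := N_nonneg (p - q)
    linarith
  rintro g ⟨φ, hφ⟩
  refine ⟨⟨copy (ρ⁻¹ • (p - q)) (ρ⁻¹ * r) (mul_pos (inv_pos.2 hρ) hr) φ,
    hG.copy_mem _ (sub_cond hρ h) φ.2⟩, (isCopy_iff hρ).2 ?_⟩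
  rw [(isCopy_iff hr).1 hφ]
  exact copy_sub hr hρ _

theorem Loc_mono' (hG : Good 𝒢) {p : E n} {r ρ : ℝ} (hr : 0 < r) (h : r ≤ ρ) :
    (Loc p r : Subgroup 𝒢) ≤ Loc p ρ := by
  rcases h.lt_or_eq with h | h
  · refine Loc_mono hG hr ?_
    rw [sub_self, N_zero]
    linarith
  · rw [h]

theorem Loc_supp (hG : Good 𝒢) {p : E n} {r : ℝ} (hr : 0 < r) {g : 𝒢} (h : g ∈ Loc p r) :
    (g : E n ≃ₜ E n) ∈ fixOff {x : E n | N (x - p) < r} := by
  obtain ⟨φ, hφ⟩ := h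
  rw [(isCopy_iff hr).1 hφ]
  exact copy_supp p r hr (supp_of_mem (hG.mem φ))

/-- the copies in two disjoint balls commute -/
theorem Loc_comm (hG : Good 𝒢) {p q : E n} {r s : ℝ} (hr : 0 < r) (hs : 0 < s) (h : r + s ≤ N (p - q))
    {a b : 𝒢} (ha : a ∈ Loc p r) (hb : b ∈ Loc q s) : a * b = b * a := by
  apply Subtype.ext
  refine comm ?_ (Loc_supp hG hr ha) (Loc_supp hG hs hb)
  rw [Set.disjoint_left]
  intro x h1 h2
  have h1' : N (x - p) < r := h1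
  have h2' : N (x - q) < s := h2
  have h3 := N_sub (x - q) (x - p)
  have h4 : x - q - (x - p) = p - q := by abel
  rw [h4] at h3
  linarith

/-- moving balls with the same radius, with elements of a copy -/
theorem move (hG : Good 𝒢) {p q : E n} {r ρ : ℝ} (hr : 0 < r) (h : N (q - p) + r < ρ)
    (hp : N p + ρ < 1) : ∃ τ ∈ (Loc p ρ : Subgroup 𝒢), ∀ φ a b, IsCopy p r φ a → IsCopy q r φ b → b = τ * a * τ⁻¹ := by
  have hρ : 0 < ρ := by
    have := N_nonneg (q - p)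
    linarith
  obtain ⟨T, hT, hT'⟩ := hG.trans (ρ⁻¹ • (q - p)) (mul_pos (inv_pos.2 hρ) hr) (sub_cond hρ h)
  refine ⟨⟨copy p ρ hρ T, hG.copy_mem hρ hp hT⟩,
    ⟨⟨T, hT⟩, (isCopy_iff hρ).2 rfl⟩, fun φ a b ha hb => ?_⟩
  apply Subtype.ext
  have hf := supp_of_mem (hG.mem φ)
  have h1 := conj_trans (mul_pos (inv_pos.2 hρ) hr) hT' hf
  change (b : E n ≃ₜ E n) = copy p ρ hρ T * (a : E n ≃ₜ E n) * (copy p ρ hρ T)⁻¹
  rw [(isCopy_iff hr).1 ha, (isCopy_iff hr).1 hb, copy_sub (q := p) hr hρ, ← h1,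
    copy_sub (p := p) (q := p) hr hρ, sub_self, smul_zero]
  unfold copy
  group

/-- moving balls with the same radius -/
theorem move' (hG : Good 𝒢) {p q : E n} {r : ℝ} (hr : 0 < r) (hp : N p + r < 1) (hq : N q + r < 1) :
    ∃ g : 𝒢, ∀ φ a b, IsCopy p r φ a → IsCopy q r φ b → b = g * a * g⁻¹ := by
  have key : ∀ p : E n, N p + r < 1 → ∃ g : 𝒢, ∀ φ a b, IsCopy 0 r φ a →
      IsCopy p r φ b → b = g * a * g⁻¹ := by
    intro p hp
    obtain ⟨T, hT, hT'⟩ := hG.trans p hr hp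
    refine ⟨⟨T, hT⟩, fun φ a b ha hb => ?_⟩
    apply Subtype.ext
    have h1 := conj_trans hr hT' (supp_of_mem (hG.mem φ))
    change (b : E n ≃ₜ E n) = T * (a : E n ≃ₜ E n) * T⁻¹
    rw [(isCopy_iff hr).1 ha, (isCopy_iff hr).1 hb, h1]
  obtain ⟨g, hg⟩ := key p hp
  obtain ⟨g', hg'⟩ := key q hq
  refine ⟨g' * g⁻¹, fun φ a b ha hb => ?_⟩
  obtain ⟨z, hz⟩ := exists_copy hG hr (show N (0 : E n) + r < 1 by
    rw [N_zero]
    have := N_nonneg p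
    linarith) φ
  rw [hg' φ z b hz hb, hg φ z a hz ha]
  group

/-- a nontrivial normal subgroup contains the commutators of the copies in small balls -/
theorem commutators (hG : Good 𝒢) (M : Subgroup 𝒢) [hMn : M.Normal] (h : M ≠ ⊥) :
    ∃ ρ : ℝ, 0 < ρ ∧ ∀ r, 0 < r → r ≤ ρ → ∀ q : E n, N q + r < 1 →
      ∀ a ∈ (Loc q r : Subgroup 𝒢), ∀ b ∈ (Loc q r : Subgroup 𝒢),
      a * b * a⁻¹ * b⁻¹ ∈ M := by
  obtain ⟨f, hf, hf1⟩ := M.bot_or_exists_ne_one.resolve_left h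
  set F : E n ≃ₜ E n := (f : E n ≃ₜ E n) with hF
  obtain ⟨x₀, hx₀⟩ : ∃ x, F x ≠ x := by
    by_contra hc
    push Not at hc
    exact hf1 (Subtype.ext (Homeomorph.ext hc))
  have hx1 : N x₀ < 1 := by
    by_contra hc
    exact hx₀ (supp_of_mem (hG.mem f) x₀ hc)
  set D := N (F x₀ - x₀) with hD
  have hD0 : 0 < D := by
    refine lt_of_le_of_ne (N_nonneg _) fun hc => hx₀ ?_
    exact sub_eq_zero.1 (N_eq_zero hc.symm)
  have hcont : Continuous fun x => N (F x - F x₀) :=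
    N_cont.comp (F.continuous.sub continuous_const)
  have h0 : N (F x₀ - F x₀) < D / 2 := by
    rw [sub_self, N_zero]
    linarith
  obtain ⟨ε, hε, hball⟩ := Metric.isOpen_iff.1 (isOpen_lt hcont continuous_const) x₀ h0
  set ρ := min (min ε (D / 2)) ((1 - N x₀) / 2) with hρ
  have hρ0 : 0 < ρ := lt_min (lt_min hε (by linarith)) (by linarith)
  have hρ1 : ρ ≤ ε := (min_le_left _ _).trans (min_le_left _ _)
  have hρ2 : ρ ≤ D / 2 := (min_le_left _ _).trans (min_le_right _ _)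
  have hρ3 : ρ ≤ (1 - N x₀) / 2 := min_le_right _ _
  have hdis : ∀ x, N (x - x₀) < ρ → ρ ≤ N (F x - x₀) := by
    intro x hx
    have h1 : N (F x - F x₀) < D / 2 := by
      apply hball
      rw [Metric.mem_ball, dist_eq_norm]
      exact (norm_le_N _).trans_lt (hx.trans_le hρ1)
    have h2 := N_sub (F x - x₀) (F x - F x₀)
    have h3 : F x - x₀ - (F x - F x₀) = F x₀ - x₀ := by abel
    rw [h3] at h2
    linarith
  refine ⟨ρ, hρ0, fun r hr hrρ q hq a ha b hb => ?_⟩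
  have hx2 : N x₀ + r < 1 := by linarith
  obtain ⟨g, hg⟩ := move' hG (p := x₀) hr hx2 hq
  obtain ⟨φ, hφ⟩ := ha
  obtain ⟨ψ, hψ⟩ := hb
  obtain ⟨a', ha'⟩ := exists_copy hG hr hx2 φ
  obtain ⟨b', hb'⟩ := exists_copy hG hr hx2 ψ
  have hcomm : (f * a'⁻¹ * f⁻¹) * b' = b' * (f * a'⁻¹ * f⁻¹) := by
    apply Subtype.ext
    have h1 : ((f * a'⁻¹ * f⁻¹ : 𝒢) : E n ≃ₜ E n) ∈
        fixOff {x : E n | N (F⁻¹ x - x₀) < r} := by
      intro x hx
      change F ((a' : E n ≃ₜ E n)⁻¹ (F⁻¹ x)) = x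
      have h2 := inv_mem (Loc_supp hG hr ⟨φ, ha'⟩)
      rw [h2 (F⁻¹ x) hx, apply_inv_self]
    refine comm ?_ h1 (Loc_supp hG hr ⟨ψ, hb'⟩)
    rw [Set.disjoint_left]
    intro x h2 h3
    have h2' : N (F⁻¹ x - x₀) < r := h2
    have h3' : N (x - x₀) < r := h3
    have h4 := hdis _ (h2'.trans_le hrρ)
    rw [apply_inv_self] at h4
    linarith
  have hk : a' * (f * a'⁻¹ * f⁻¹) ∈ M := by
    have h1 : a' * f * a'⁻¹ ∈ M := hMn.conj_mem f hf a'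
    have h2 := M.mul_mem h1 (M.inv_mem hf)
    simpa only [mul_assoc] using h2
  have hk2 : a' * b' * a'⁻¹ * b'⁻¹ ∈ M := by
    set w := f * a'⁻¹ * f⁻¹ with hw
    have h1 : b' * (a' * w)⁻¹ * b'⁻¹ ∈ M := hMn.conj_mem _ (M.inv_mem hk) b'
    have h2 := M.mul_mem hk h1
    have h3 : a' * w * (b' * (a' * w)⁻¹ * b'⁻¹) = a' * b' * a'⁻¹ * b'⁻¹ := by
      calc a' * w * (b' * (a' * w)⁻¹ * b'⁻¹) = a' * (w * b') * w⁻¹ * a'⁻¹ * b'⁻¹ := by group
        _ = a' * b' * a'⁻¹ * b'⁻¹ := by rw [hcomm]; group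
    rwa [h3] at h2
  rw [hg φ a' a ha' hφ, hg ψ b' b hb' hψ]
  have h5 : g * a' * g⁻¹ * (g * b' * g⁻¹) * (g * a' * g⁻¹)⁻¹ * (g * b' * g⁻¹)⁻¹ =
      g * (a' * b' * a'⁻¹ * b'⁻¹) * g⁻¹ := by group
  rw [h5]
  exact hMn.conj_mem _ hk2 g

end Pool.Agent.Q271.HB.Gen
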