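import Pool.Agent.Y453.HB.Fin

/-!
# Hamiltonian homeomorphisms of the ball: similarities, rotations, translations
-/

set_option autoImplicit false

open Set Filter Topology Function

namespace Pool.Agent.Q271.HB

open Pool.Agent.Y453.HB

variable {n : ℕ}

/-- the Euclidean norm -/
noncomputable def N (x : E n) : ℝ := √(Q x)

theorem N_nonneg (x : E n) : 0 ≤ N x := Real.sqrt_nonneg _

theorem N_add (x y : E n) : N (x + y) ≤ N x + N y := sqrtQ_add x y

theorem N_smul {c : ℝ} (hc : 0 ≤ c) (x : E n) : N (c • x) = c * N x := by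
  unfold N
  rw [Q_smul, Real.sqrt_mul (sq_nonneg c), Real.sqrt_sq hc]

theorem N_neg (x : E n) : N (-x) = N x := by
  unfold N
  rw [show -x = (-1 : ℝ) • x by simp, Q_smul]
  norm_num

theorem N_sub (x y : E n) : N (x - y) ≤ N x + N y := by
  rw [sub_eq_add_neg, ← N_neg y]
  exact N_add _ _

theorem N_sub_comm (x y : E n) : N (x - y) = N (y - x) := by
  rw [← N_neg, neg_sub]

theorem N_zero : N (0 : E n) = 0 := by
  have := N_smul (n := n) (le_refl (0 : ℝ)) 0
  rwa [zero_smul, zero_mul] at this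

theorem N_eq_zero {x : E n} (h : N x = 0) : x = 0 :=
  Q_eq_zero x ((Real.sqrt_eq_zero (Q_nonneg x)).1 h)

theorem N_cont : Continuous (N : E n → ℝ) := Real.continuous_sqrt.comp Q_cont

theorem norm_le_N (x : E n) : ‖x‖ ≤ N x := norm_le x

theorem N_lt_one {x : E n} : N x < 1 ↔ Q x < 1 := by
  unfold N
  rw [Real.sqrt_lt' one_pos, one_pow]

theorem N_sq (x : E n) : N x ^ 2 = Q x := Real.sq_sqrt (Q_nonneg x)

theorem N_compact (m : E n) (c : ℝ) : IsCompact {x : E n | N (x - m) ≤ c} := by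
  have h1 : IsCompact {x : E n | Q x ≤ c ^ 2} := Q_compact _
  have h2 : IsCompact ((fun y => y + m) '' {x : E n | Q x ≤ c ^ 2}) :=
    h1.image (continuous_id.add continuous_const)
  refine h2.of_isClosed_subset (isClosed_le (N_cont.comp (continuous_id.sub continuous_const))
    continuous_const) ?_
  intro x hx
  refine ⟨x - m, ?_, sub_add_cancel x m⟩
  have hx' : N (x - m) ≤ c := hx
  change Q (x - m) ≤ c ^ 2
  rw [← N_sq]
  exact pow_le_pow_left₀ (N_nonneg _) hx' 2

/-- a vector of given norm -/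
theorem exists_N (hn : 0 < n) {d : ℝ} (hd : 0 ≤ d) : ∃ a : E n, N a = d := by
  refine ⟨(Pi.single ⟨0, hn⟩ d, 0), ?_⟩
  have hQa : Q ((Pi.single ⟨0, hn⟩ d, 0) : E n) = d ^ 2 := by
    unfold Q
    rw [Finset.sum_eq_single ⟨0, hn⟩]
    · simp
    · intro i _ hi
      simp [Pi.single_eq_of_ne hi]
    · intro hi; exact absurd (Finset.mem_univ _) hi
  unfold N
  rw [hQa, Real.sqrt_sq hd]

theorem hM : S_MUL := Pool.Agent.Y907.HB.mul
theorem hI : S_INV := Pool.Agent.Y510.HB.inv
theorem hD : S_DIL := Pool.Agent.Y419.HB.dil_ham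
theorem hU : S_UC := Pool.Agent.Y309.HB.uc

open Pool.Agent.Y945.HB in
/-- the rotation by the angle `π` about `m`, cut off -/
theorem rot' (m : E n) {c : ℝ} (hc0 : 0 < c) (hmc : N m + c < 1) :
    ∃ R : E n ≃ₜ E n, IsHam R ∧ ∀ x, N (x - m) ≤ c → R x = m + m - x := by
  set ρ : ℝ := (c + (1 - N m)) / 2 with hρ
  have hcρ : c < ρ := by rw [hρ]; linarith
  have hρ1 : ρ + N m < 1 := by rw [hρ]; linarith
  have hρ0 : 0 < ρ := hc0.trans hcρ
  set q₂ : ℝ := ρ ^ 2 with hq₂
  set q₁ : ℝ := (c ^ 2 + ρ ^ 2) / 2 with hq₁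
  have hcc : c ^ 2 < ρ ^ 2 := by nlinarith
  have h1 : c ^ 2 < q₁ := by rw [hq₁]; linarith
  have h2 : q₁ < q₂ := by rw [hq₁, hq₂]; linarith
  have h21 : 0 < q₂ - q₁ := by linarith
  -- the function
  set χ : ℝ → ℝ := fun q => Real.smoothTransition ((q₂ - q) / (q₂ - q₁)) with hχ
  set h : ℝ → ℝ := fun q => Real.pi / 2 * q * χ q with hh
  have hχs : ContDiff ℝ ((⊤ : ℕ∞) : WithTop ℕ∞) χ := by
    rw [hχ]
    exact Real.smoothTransition.contDiff.comp
      ((contDiff_const.sub contDiff_id).div_const (q₂ - q₁))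
  have hhs : ContDiff ℝ ((⊤ : ℕ∞) : WithTop ℕ∞) h := by
    rw [hh]
    exact (contDiff_const.mul contDiff_id).mul hχs
  have hhd : Differentiable ℝ h := hhs.differentiable (by simp)
  have hdc : Continuous (deriv h) := hhs.continuous_deriv (by
    exact_mod_cast le_top)
  have hgc : Continuous (fun q => 2 * deriv h q) := hdc.const_mul 2
  have hder : ∀ q, q < q₁ → 2 * deriv h q = Real.pi := by
    intro q hq
    have h3 : h =ᶠ[𝓝 q] fun q => Real.pi / 2 * q := by
      filter_upwards [Iio_mem_nhds hq] with y hy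
      have h4 : χ y = 1 := by
        rw [hχ]
        apply Real.smoothTransition.one_of_one_le
        rw [le_div_iff₀ h21]
        have : y < q₁ := hy
        linarith
      show Real.pi / 2 * y * χ y = _
      rw [h4, mul_one]
    rw [h3.deriv_eq]
    have h5 : deriv (fun q : ℝ => Real.pi / 2 * q) q = Real.pi / 2 := by
      simp
    rw [h5]; ring
  refine ⟨TW (fun q => 2 * deriv h q) hgc m, ?_, ?_⟩
  · refine ⟨fun _ y => h (Q (y - m)), ?_, ⟨{x | N (x - m) ≤ ρ}, N_compact m ρ, ?_, ?_⟩,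
      fun t x => m + rt (2 * deriv h (Q (x - m)) * t) (x - m), ?_, ?_, ?_⟩
    · exact hhs.comp (Q_smooth.comp (contDiff_snd.sub contDiff_const))
    · intro x hx
      have hx' : N (x - m) ≤ ρ := hx
      have h3 := N_add (x - m) m
      rw [sub_add_cancel] at h3
      exact N_lt_one.1 (by linarith)
    · intro t x hx
      have hx' : ρ < N (x - m) := not_le.1 hx
      have hx2 : q₂ < Q (x - m) := by
        rw [← N_sq]
        exact pow_lt_pow_left₀ hx' hρ0.le two_ne_zero
      show Real.pi / 2 * Q (x - m) * χ (Q (x - m)) = 0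
      have h3 : χ (Q (x - m)) = 0 := by
        rw [hχ]
        apply Real.smoothTransition.zero_of_nonpos
        apply div_nonpos_of_nonpos_of_nonneg _ h21.le
        linarith
      rw [h3, mul_zero]
    · intro x
      simp only [mul_zero, rt_zero, add_sub_cancel]
    · intro t x
      rw [XH_eq hhd m]
      simp only [add_sub_cancel_left, Q_rt]
      exact flow_deriv _ m (x - m) t
    · intro x
      simp only [mul_one]
      rfl
  · intro x hx
    have h6 : Q (x - m) ≤ c ^ 2 := by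
      rw [← N_sq]
      exact pow_le_pow_left₀ (N_nonneg _) hx 2
    show m + rt (2 * deriv h (Q (x - m))) (x - m) = m + m - x
    rw [hder _ (h6.trans_lt h1), rt_pi]
    abel

/-- translations, cut off -/
theorem trans (p : E n) {r : ℝ} (hr : 0 < r) (h : N p + r < 1) :
    ∃ T : E n ≃ₜ E n, IsHam T ∧ ∀ x, N x ≤ r → T x = p + x := by
  obtain ⟨R₀, h0, h0'⟩ := rot' (0 : E n) hr (by
    rw [N_zero]
    have := N_nonneg p
    linarith)
  have hp2 : N ((1 / 2 : ℝ) • p) = 1 / 2 * N p := N_smul (by norm_num) p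
  obtain ⟨R₁, h1, h1'⟩ := rot' ((1 / 2 : ℝ) • p) (c := r + 1 / 2 * N p) (by
    have := N_nonneg p
    linarith) (by rw [hp2]; linarith)
  refine ⟨R₁ * R₀, hM n _ _ h1 h0, fun x hx => ?_⟩
  rw [mul_apply, h0' x (by rwa [sub_zero]), h1']
  · rw [← add_smul]
    norm_num
  · rw [add_zero, zero_sub]
    refine (N_sub _ _).trans ?_
    rw [N_neg, hp2]
    linarith

/-- the similarity `x ↦ p + r x` -/
noncomputable def sim (p : E n) (r : ℝ) (hr : 0 < r) : E n ≃ₜ E n :=
  (dil r hr).trans (Homeomorph.addLeft p)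

theorem sim_apply (p : E n) (r : ℝ) (hr : 0 < r) (x : E n) : sim p r hr x = p + r • x := rfl

theorem sim_inv_apply (p : E n) (r : ℝ) (hr : 0 < r) (x : E n) :
    (sim p r hr)⁻¹ x = r⁻¹ • (x - p) := by
  have h1 : sim p r hr (r⁻¹ • (x - p)) = x := by
    rw [sim_apply, smul_smul, mul_inv_cancel₀ hr.ne', one_smul, add_sub_cancel]
  have h2 := inv_apply_self (sim p r hr) (r⁻¹ • (x - p))
  rwa [h1] at h2

/-- the copy of `φ` in the ball with centre `p` and radius `r` -/
noncomputable def copy (p : E n) (r : ℝ) (hr : 0 < r) (φ : E n ≃ₜ E n) : E n ≃ₜ E n :=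
  sim p r hr * φ * (sim p r hr)⁻¹

theorem copy_apply (p : E n) (r : ℝ) (hr : 0 < r) (φ : E n ≃ₜ E n) (x : E n) :
    copy p r hr φ (p + r • x) = p + r • φ x := by
  unfold copy
  rw [mul_apply, mul_apply, sim_inv_apply, sim_apply, add_sub_cancel_left, smul_smul,
    inv_mul_cancel₀ hr.ne', one_smul]

theorem copy_apply' (p : E n) (r : ℝ) (hr : 0 < r) (φ : E n ≃ₜ E n) (x : E n) :
    copy p r hr φ x = p + r • φ (r⁻¹ • (x - p)) := by
  unfold copy
  rw [mul_apply, mul_apply, sim_inv_apply, sim_apply]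

theorem copy_mul (p : E n) (r : ℝ) (hr : 0 < r) (φ ψ : E n ≃ₜ E n) :
    copy p r hr (φ * ψ) = copy p r hr φ * copy p r hr ψ := by
  unfold copy
  group

theorem copy_zpow (p : E n) (r : ℝ) (hr : 0 < r) (φ : E n ≃ₜ E n) (e : ℤ) :
    copy p r hr (φ ^ e) = copy p r hr φ ^ e := by
  unfold copy
  rw [conj_zpow]

open Pool.Agent.Y496.HB

/-- elements which are the identity off the open unit ball -/
theorem supp_of_mem {φ : E n ≃ₜ E n} (h : φ ∈ hamBar n) : φ ∈ fixOff {x : E n | N x < 1} := by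
  obtain ⟨K, hK, hK1, hK2, -⟩ := h
  intro x hx
  exact hK2 x fun h => hx (N_lt_one.2 (hK1 h))

theorem copy_supp (p : E n) (r : ℝ) (hr : 0 < r) {φ : E n ≃ₜ E n}
    (h : φ ∈ fixOff {x : E n | N x < 1}) : copy p r hr φ ∈ fixOff {x : E n | N (x - p) < r} := by
  intro x hx
  rw [copy_apply', h, smul_smul, mul_inv_cancel₀ hr.ne', one_smul, add_sub_cancel]
  intro hc
  apply hx
  have hc' : N (r⁻¹ • (x - p)) < 1 := hc
  rw [N_smul (inv_nonneg.2 hr.le), inv_mul_lt_iff₀ hr, mul_one] at hc'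
  exact hc'

/-- conjugation by a translation of a small ball -/
theorem conj_trans {p : E n} {r : ℝ} (hr : 0 < r) {T φ : E n ≃ₜ E n}
    (hT : ∀ x, N x ≤ r → T x = p + x) (h : φ ∈ fixOff {x : E n | N x < 1}) :
    T * copy 0 r hr φ * T⁻¹ = copy p r hr φ := by
  refine Homeomorph.ext fun y => ?_
  rw [mul_apply, mul_apply]
  set z := T⁻¹ y with hz
  have hTz : T z = y := apply_inv_self T y
  by_cases h1 : N z ≤ r
  · have h2 : y = p + z := by rw [← hTz, hT z h1]
    have h3 : N (copy 0 r hr φ z) ≤ r := by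
      by_cases h4 : N z < r
      · have := maps (copy_supp 0 r hr h) (x := z) (by simpa using h4)
        simp only [mem_setOf_eq, sub_zero] at this
        exact this.le
      · rw [copy_supp 0 r hr h z (by simpa using h4)]
        exact h1
    rw [hT _ h3, copy_apply', copy_apply', h2, sub_zero, zero_add, add_sub_cancel_left]
  · have h2 : copy 0 r hr φ z = z :=
      copy_supp 0 r hr h z (by
        simp only [mem_setOf_eq, sub_zero, not_lt]
        exact (not_le.1 h1).le)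
    have h3 : copy p r hr φ y = y := by
      apply copy_supp p r hr h y
      simp only [mem_setOf_eq, not_lt]
      by_contra h4
      push Not at h4
      have h5 := hT (y - p) h4.le
      rw [add_sub_cancel] at h5
      have h6 : z = y - p := by
        rw [hz]
        nth_rewrite 1 [← h5]
        exact inv_apply_self T _
      rw [h6] at h1
      exact h1 h4.le
    rw [h2, hTz, h3]

theorem copy_zero (r : ℝ) (hr : 0 < r) (φ : E n ≃ₜ E n) :
    copy 0 r hr φ = dil r hr * φ * (dil r hr)⁻¹ := by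
  refine Homeomorph.ext fun x => ?_
  rw [copy_apply', sub_zero, zero_add, mul_apply, mul_apply, dil_inv_apply, dil_apply]

theorem copy_ham {p : E n} {r : ℝ} (hr : 0 < r) (h : N p + r < 1) {u : E n ≃ₜ E n}
    (hu : IsHam u) : IsHam (copy p r hr u) := by
  obtain ⟨T, hT, hT'⟩ := trans p hr h
  have hr1 : r ≤ 1 := by
    have := N_nonneg p
    linarith
  rw [← conj_trans hr hT' (supp_of_mem (ham_mem hu)), copy_zero]
  exact hM n _ _ (hM n _ _ hT (hD n r hr hr1 u hu)) ((hI n).2 _ hT)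

theorem sim_uconv (p : E n) (r : ℝ) (hr : 0 < r) : UConv (fun _ => sim p r hr) (sim p r hr) := by
  refine ⟨?_, ?_, ?_⟩
  · rw [Metric.tendstoUniformly_iff]
    intro ε hε
    exact Eventually.of_forall fun k x => by rwa [dist_self]
  · exact (uniformContinuous_const.add (Pool.Agent.Y309.HB.uc_smul r))
  · have h1 : UniformContinuous fun x : E n => r⁻¹ • (x - p) :=
      (Pool.Agent.Y309.HB.uc_smul r⁻¹).comp (uniformContinuous_id.sub uniformContinuous_const)
    have h2 : ((sim p r hr)⁻¹ : E n ≃ₜ E n) = (fun x : E n => r⁻¹ • (x - p)) :=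
      funext fun x => sim_inv_apply p r hr x
    rw [h2]
    exact h1

theorem copy_uconv {p : E n} {r : ℝ} (hr : 0 < r) {u : ℕ → (E n ≃ₜ E n)} {φ : E n ≃ₜ E n}
    (h : UConv u φ) : UConv (fun k => copy p r hr (u k)) (copy p r hr φ) :=
  (hU n).1 _ _ _ _ ((hU n).1 _ _ _ _ (sim_uconv p r hr) h) ((hU n).2.1 _ _ (sim_uconv p r hr))

/-- the limits of Hamiltonian diffeomorphisms supported in `K` -/
def hamK (K : Set (E n)) : Set (E n ≃ₜ E n) :=
  {φ | (∀ x, x ∉ K → φ x = x) ∧ ∃ u : ℕ → (E n ≃ₜ E n), (∀ k, ∀ x, x ∉ K → u k x = x) ∧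
    (∀ k, IsHam (u k)) ∧ TendstoUniformly (fun (k : ℕ) (x : E n) => u k x) (fun x => φ x) atTop}

theorem hamBar_of {K : Set (E n)} (hK : IsCompact K) (hK1 : ∀ x ∈ K, N x < 1) {φ : E n ≃ₜ E n}
    (h : φ ∈ hamK K) : φ ∈ hamBar n :=
  ⟨K, hK, fun x hx => N_lt_one.1 (hK1 x hx), h.1, h.2⟩

theorem hamK_mul {K : Set (E n)} (hK : IsCompact K) {φ ψ : E n ≃ₜ E n} (h : φ ∈ hamK K)
    (h' : ψ ∈ hamK K) : φ * ψ ∈ hamK K := by
  obtain ⟨h1, u, hu1, hu2, hu3⟩ := h
  obtain ⟨h1', v, hv1, hv2, hv3⟩ := h'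
  refine ⟨fun x hx => ?_, fun k => u k * v k, fun k x hx => ?_,
    fun k => hM n _ _ (hu2 k) (hv2 k), ?_⟩
  · rw [mul_apply, h1' x hx, h1 x hx]
  · rw [mul_apply, hv1 k x hx, hu1 k x hx]
  · exact ((hU n).1 _ _ _ _ (uconv_of hU hK h1 hu3) (uconv_of hU hK h1' hv3)).1

theorem copy_hamK {K : Set (E n)} {p : E n} {r : ℝ} (hr : 0 < r)
    (h : N p + r < 1) (hpK : ∀ x, N (x - p) < r → x ∈ K) {φ : E n ≃ₜ E n} (hφ : φ ∈ hamBar n) :
    copy p r hr φ ∈ hamK K := by
  have hs : ∀ v : E n ≃ₜ E n, v ∈ hamBar n → ∀ x, x ∉ K → copy p r hr v x = x :=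
    fun v hv x hx => copy_supp p r hr (supp_of_mem hv) x fun h => hx (hpK x h)
  obtain ⟨L, hL, hL1, hL2, u, hu1, hu2, hu3⟩ := id hφ
  exact ⟨hs φ hφ, fun k => copy p r hr (u k), fun k => hs _ (ham_mem (hu2 k)),
    fun k => copy_ham hr h (hu2 k), (copy_uconv hr (uconv_of hU hL hL2 hu3)).1⟩

theorem copy_mem {p : E n} {r : ℝ} (hr : 0 < r) (h : N p + r < 1) {φ : E n ≃ₜ E n}
    (hφ : φ ∈ hamBar n) : copy p r hr φ ∈ hamBar n := by
  refine hamBar_of (N_compact p r) (fun x hx => ?_) (copy_hamK hr h (fun x hx => ?_) hφ)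
  · have hx' : N (x - p) ≤ r := hx
    have h3 := N_add (x - p) p
    rw [sub_add_cancel] at h3
    linarith
  · exact le_of_lt hx

theorem hamK_lim {K : Set (E n)} {f : ℕ → (E n ≃ₜ E n)} {φ : E n ≃ₜ E n}
    (hf : ∀ k, f k ∈ hamK K)
    (h : TendstoUniformly (fun (k : ℕ) (x : E n) => f k x) (fun x => φ x) atTop) :
    φ ∈ hamK K := by
  refine ⟨fun x hx => ?_, ?_⟩
  · have h1 : Tendsto (fun k => f k x) atTop (𝓝 (φ x)) := h.tendsto_at x
    have h2 : (fun k => f k x) = fun _ => x := funext fun k => (hf k).1 x hx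
    rw [h2] at h1
    exact (tendsto_nhds_unique h1 tendsto_const_nhds)
  · have hJ : ∀ m : ℕ, ∃ v : E n ≃ₜ E n, (∀ x, x ∉ K → v x = x) ∧ IsHam v ∧
        ∀ x, dist (f m x) (v x) < 1 / ((m : ℝ) + 1) := by
      intro m
      obtain ⟨-, u, hu1, hu2, hu3⟩ := hf m
      obtain ⟨k, hk⟩ := (Metric.tendstoUniformly_iff.1 hu3 (1 / ((m : ℝ) + 1))
        (by positivity)).exists
      exact ⟨u k, hu1 k, hu2 k, hk⟩
    choose v hv1 hv2 hv3 using hJ
    refine ⟨v, hv1, hv2, ?_⟩
    rw [Metric.tendstoUniformly_iff] at h ⊢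
    intro ε hε
    have h1 : ∀ᶠ m : ℕ in atTop, 1 / ((m : ℝ) + 1) < ε / 2 :=
      (tendsto_one_div_add_atTop_nhds_zero_nat (𝕜 := ℝ)).eventually (gt_mem_nhds (half_pos hε))
    filter_upwards [h1, h (ε / 2) (half_pos hε)] with m hm1 hm2 x
    calc dist (φ x) (v m x) ≤ dist (φ x) (f m x) + dist (f m x) (v m x) := dist_triangle _ _ _
      _ < ε / 2 + ε / 2 := add_lt_add (hm2 x) ((hv3 m x).trans hm1)
      _ = ε := add_halves ε

/-- limits of homeomorphisms -/
theorem exists_lim (f : ℕ → (E n ≃ₜ E n)) (b : ℕ → ℝ) (hb : Tendsto b atTop (𝓝 0))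
    (h1 : ∀ m M x, m ≤ M → dist (f m x) (f M x) ≤ b m)
    (h2 : ∀ m M x, m ≤ M → dist ((f m)⁻¹ x) ((f M)⁻¹ x) ≤ b m) :
    ∃ φ : E n ≃ₜ E n, TendstoUniformly (fun (k : ℕ) (x : E n) => f k x) (fun x => φ x) atTop := by
  have key : ∀ g : ℕ → (E n ≃ₜ E n), (∀ m M x, m ≤ M → dist (g m x) (g M x) ≤ b m) →
      ∃ G : E n → E n, TendstoUniformly (fun (k : ℕ) (x : E n) => g k x) G atTop ∧
        Continuous G := by
    intro g hg
    have hc : ∀ x, ∃ y, Tendsto (fun k => g k x) atTop (𝓝 y) := by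
      intro x
      apply cauchySeq_tendsto_of_complete
      apply cauchySeq_of_le_tendsto_0 (fun k => 2 * b k)
      · intro p q m hp hq
        calc dist (g p x) (g q x) ≤ dist (g m x) (g p x) + dist (g m x) (g q x) :=
              dist_triangle_left _ _ _
          _ ≤ b m + b m := add_le_add (hg m p x hp) (hg m q x hq)
          _ = 2 * b m := by ring
      · simpa using hb.const_mul 2
    choose G hG using hc
    have hlim : TendstoUniformly (fun (k : ℕ) (x : E n) => g k x) G atTop := by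
      rw [Metric.tendstoUniformly_iff]
      intro ε hε
      filter_upwards [hb.eventually (gt_mem_nhds hε)] with m hm x
      have h3 : dist (g m x) (G x) ≤ b m := by
        refine le_of_tendsto (tendsto_const_nhds.dist (hG x)) ?_
        filter_upwards [eventually_ge_atTop m] with M hM
        exact hg m M x hM
      rw [dist_comm]
      exact h3.trans_lt hm
    exact ⟨G, hlim, hlim.continuous (Frequently.of_forall fun m => (g m).continuous)⟩
  obtain ⟨F, hF1, hF2⟩ := key f h1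
  obtain ⟨G, hG1, hG2⟩ := key (fun k => (f k)⁻¹) h2
  have hFG : ∀ x, F (G x) = x := by
    intro x
    have h3 : Tendsto (fun k => f k ((f k)⁻¹ x)) atTop (𝓝 (F (G x))) :=
      hF1.tendsto_comp hF2.continuousAt (hG1.tendsto_at x)
    have h4 : (fun k => f k ((f k)⁻¹ x)) = fun _ => x := funext fun k => apply_inv_self _ _
    rw [h4] at h3
    exact (tendsto_nhds_unique h3 tendsto_const_nhds)
  have hGF : ∀ x, G (F x) = x := by
    intro x
    have h3 : Tendsto (fun k => (f k)⁻¹ (f k x)) atTop (𝓝 (G (F x))) :=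
      hG1.tendsto_comp hG2.continuousAt (hF1.tendsto_at x)
    have h4 : (fun k => (f k)⁻¹ (f k x)) = fun _ => x := funext fun k => inv_apply_self _ _
    rw [h4] at h3
    exact (tendsto_nhds_unique h3 tendsto_const_nhds)
  exact ⟨⟨⟨F, G, hGF, hFG⟩, hF2, hG2⟩, hF1⟩

end Pool.Agent.Q271.HB
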