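import Pool.Agent.Q271.HB.GLin

/-!
# Hameomorphisms of the ball
-/

set_option autoImplicit false

open Set Filter Topology Function

namespace Pool.Agent.Q271.HB.Gen

open Pool.Agent.Y453.HB Pool.Agent.Y496.HB

/-- the oscillation -/
noncomputable def osc {n : ℕ} (f : E n → ℝ) : ℝ := (⨆ x, f x) - ⨅ x, f x

/-- the Hofer norm -/
noncomputable def hofer {n : ℕ} (H : ℝ → E n → ℝ) : ℝ := ∫ t in (0 : ℝ)..1, osc (H t)

/-- the hameomorphisms of the ball -/
def hameo (n : ℕ) : Set (E n ≃ₜ E n) :=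
  {φ | ∃ K : Set (E n), IsCompact K ∧ K ⊆ {p : E n | Q p < 1} ∧
    ∃ (H : ℕ → ℝ → E n → ℝ) (ψ : ℕ → ℝ → (E n ≃ₜ E n)) (Ψ : ℝ → (E n ≃ₜ E n)),
      (∀ k, ContDiff ℝ ((⊤ : ℕ∞) : WithTop ℕ∞) (Function.uncurry (H k))) ∧
      (∀ k t x, x ∉ K → H k t x = 0) ∧
      (∀ k, (∀ x, ψ k 0 x = x) ∧
        ∀ t x, HasDerivAt (fun s : ℝ => ψ k s x) (XH (H k t) (ψ k t x)) t) ∧
      (∀ ε : ℝ, 0 < ε → ∃ m, ∀ i, m ≤ i → ∀ j, m ≤ j →
        hofer (fun t x => H i t x - H j t x) < ε) ∧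
      (∀ ε : ℝ, 0 < ε → ∃ m, ∀ k, m ≤ k → ∀ t ∈ Icc (0 : ℝ) 1, ∀ x, dist (ψ k t x) (Ψ t x) < ε) ∧
      ContinuousOn (fun p : ℝ × E n => Ψ p.1 p.2) (Icc 0 1 ×ˢ univ) ∧ Ψ 1 = φ}

/-- the group of hameomorphisms of the ball -/
def Hameo (n : ℕ) : Subgroup (E n ≃ₜ E n) := Subgroup.closure (hameo n)

variable {n : ℕ}

theorem osc_zero : osc (fun _ : E n => (0 : ℝ)) = 0 := by
  unfold osc
  rw [ciSup_const, ciInf_const, sub_zero]

theorem hofer_zero : hofer (fun (_ : ℝ) (_ : E n) => (0 : ℝ)) = 0 := by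
  have h : (fun t : ℝ => osc ((fun (_ : ℝ) (_ : E n) => (0 : ℝ)) t)) = fun _ => 0 :=
    funext fun _ => osc_zero
  unfold hofer
  rw [h]
  simp

theorem osc_scale {s : ℝ} (hs : 0 < s) (f : E n → ℝ) :
    osc (fun x => s ^ 2 * f (s⁻¹ • x)) = s ^ 2 * osc f := by
  have hsurj : Surjective fun x : E n => s⁻¹ • x := fun y =>
    ⟨s • y, by simp only [smul_smul, inv_mul_cancel₀ hs.ne', one_smul]⟩
  have h1 : (⨆ x, f (s⁻¹ • x)) = ⨆ x, f x := hsurj.iSup_comp (fun x => f x)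
  have h2 : (⨅ x, f (s⁻¹ • x)) = ⨅ x, f x := hsurj.iInf_comp (fun x => f x)
  unfold osc
  rw [← Real.mul_iSup_of_nonneg (sq_nonneg s), ← Real.mul_iInf_of_nonneg (sq_nonneg s), h1, h2]
  ring

theorem hofer_scale {s : ℝ} (hs : 0 < s) (H : ℝ → E n → ℝ) :
    hofer (fun t x => s ^ 2 * H t (s⁻¹ • x)) = s ^ 2 * hofer H := by
  unfold hofer
  rw [← intervalIntegral.integral_const_mul]
  congr 1
  funext t
  exact osc_scale hs (H t)

/-- flows of Hamiltonians supported in `K` are the identity off `K` -/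
theorem flow_fix {H : ℝ → E n → ℝ} {K : Set (E n)} (hK : IsCompact K)
    (hH : ∀ t x, x ∉ K → H t x = 0) {ψ : ℝ → E n → E n} (h0 : ∀ x, ψ 0 x = x)
    (hψ : ∀ t x, HasDerivAt (fun s : ℝ => ψ s x) (XH (H t) (ψ t x)) t) {x : E n} (hx : x ∉ K)
    (t : ℝ) : ψ t x = x := by
  have hXH : ∀ t y, y ∉ K → XH (H t) y = 0 := by
    intro t y hy
    have h2 : H t =ᶠ[𝓝 y] fun _ => (0 : ℝ) := by
      filter_upwards [hK.isClosed.isOpen_compl.mem_nhds hy] with z hz using hH t z hz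
    have h3 : fderiv ℝ (H t) y = 0 := by
      rw [h2.fderiv_eq]
      simp
    unfold XH
    rw [h3]
    ext <;> simp
  have hcont : Continuous fun t => ψ t x :=
    continuous_iff_continuousAt.2 fun t => (hψ t x).continuousAt
  have hclosed : IsClosed {t : ℝ | ψ t x = x} := isClosed_eq hcont continuous_const
  have hopen : IsOpen {t : ℝ | ψ t x = x} := by
    rw [Metric.isOpen_iff]
    intro t ht
    have ht' : ψ t x = x := ht
    have h2 : ∀ᶠ s in 𝓝 t, ψ s x ∉ K := by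
      have h3 : Kᶜ ∈ 𝓝 (ψ t x) := by
        rw [ht']
        exact hK.isClosed.isOpen_compl.mem_nhds hx
      exact hcont.continuousAt.eventually_mem h3
    obtain ⟨ε, hε, h3⟩ := Metric.eventually_nhds_iff.1 h2
    refine ⟨ε, hε, fun s hs => ?_⟩
    have hconv : Convex ℝ (Metric.ball t ε) := convex_ball t ε
    have h4 : ∀ y ∈ Metric.ball t ε, HasDerivWithinAt (fun s => ψ s x) 0 (Metric.ball t ε) y := by
      intro y hy
      have h5 := hψ y x
      rw [hXH y _ (h3 hy)] at h5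
      exact h5.hasDerivWithinAt
    have h6 := hconv.norm_image_sub_le_of_norm_hasDerivWithin_le (f := fun s => ψ s x)
      (f' := fun _ => 0) (C := 0) h4 (by simp) (Metric.mem_ball_self hε) hs
    rw [zero_mul, norm_le_zero_iff, sub_eq_zero] at h6
    change ψ s x = x
    rw [← ht']
    rw [ht'] at h6 ⊢
    exact h6
  have huniv : {t : ℝ | ψ t x = x} = univ :=
    IsClopen.eq_univ ⟨hclosed, hopen⟩ ⟨0, h0 x⟩
  have : t ∈ {t : ℝ | ψ t x = x} := by rw [huniv]; exact mem_univ _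
  exact this

/-- hameomorphisms are Hamiltonian homeomorphisms -/
theorem hameo_sub {φ : E n ≃ₜ E n} (h : φ ∈ hameo n) : φ ∈ hamBar n := by
  obtain ⟨K, hK, hK1, H, ψ, Ψ, h1, h2, h3, -, h5, -, rfl⟩ := h
  have hfix : ∀ k x, x ∉ K → ψ k 1 x = x := fun k x hx =>
    flow_fix hK (h2 k) (h3 k).1 (h3 k).2 hx 1
  have hlim : TendstoUniformly (fun (k : ℕ) (x : E n) => ψ k 1 x) (fun x => Ψ 1 x) atTop := by
    rw [Metric.tendstoUniformly_iff]
    intro ε hε
    obtain ⟨m, hm⟩ := h5 ε hε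
    filter_upwards [eventually_ge_atTop m] with k hk x
    rw [dist_comm]
    exact hm k hk 1 (right_mem_Icc.2 zero_le_one) x
  refine ⟨K, hK, hK1, fun x hx => ?_, fun k => ψ k 1, hfix, fun k => ?_, hlim⟩
  · have h6 : Tendsto (fun k => ψ k 1 x) atTop (𝓝 (Ψ 1 x)) := hlim.tendsto_at x
    have h7 : (fun k => ψ k 1 x) = fun _ => x := funext fun k => hfix k x hx
    rw [h7] at h6
    exact tendsto_nhds_unique h6 tendsto_const_nhds
  · exact ⟨H k, h1 k, ⟨K, hK, hK1, h2 k⟩, fun t x => ψ k t x, (h3 k).1, (h3 k).2, fun _ => rfl⟩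

theorem Hameo_le : Hameo n ≤ HamBar n := by
  unfold Hameo
  rw [Subgroup.closure_le]
  intro φ hφ
  exact Subgroup.subset_closure (hameo_sub hφ)

/-- dilations of hameomorphisms -/
theorem hameo_dil {s : ℝ} (hs : 0 < s) (hs1 : s < 1) {φ : E n ≃ₜ E n} (h : φ ∈ hameo n) :
    copy 0 s hs φ ∈ hameo n := by
  obtain ⟨K, hK, hK1, H, ψ, Ψ, h1, h2, h3, h4, h5, h6, rfl⟩ := h
  have hs0 : s ≠ 0 := hs.ne'
  have happ : ∀ (u : E n ≃ₜ E n) (x : E n), copy 0 s hs u x = s • u (s⁻¹ • x) := fun u x => by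
    rw [copy_apply', sub_zero, zero_add]
  refine ⟨(fun x => s • x) '' K, hK.image (continuous_const_smul s), ?_,
    fun k t x => s ^ 2 * H k t (s⁻¹ • x), fun k t => copy 0 s hs (ψ k t),
    fun t => copy 0 s hs (Ψ t), fun k => ?_, fun k t x hx => ?_, fun k => ⟨fun x => ?_, ?_⟩,
    fun ε hε => ?_, fun ε hε => ?_, ?_, rfl⟩
  · rintro _ ⟨x, hx, rfl⟩
    have h1 : Q x < 1 := hK1 hx
    have h0 : 0 ≤ Q x := Q_nonneg x
    show Q (s • x) < 1
    rw [Q_smul]
    have h2 : s ^ 2 ≤ 1 := by nlinarith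
    nlinarith
  · have h7 : ContDiff ℝ ((⊤ : ℕ∞) : WithTop ℕ∞)
        (fun q : ℝ × E n => s ^ 2 * Function.uncurry (H k) (q.1, s⁻¹ • q.2)) := by
      refine contDiff_const.mul ((h1 k).comp ?_)
      exact contDiff_fst.prodMk (contDiff_snd.const_smul s⁻¹)
    exact h7
  · have h7 : s⁻¹ • x ∉ K := by
      intro h
      exact hx ⟨s⁻¹ • x, h, smul_inv_smul₀ hs0 x⟩
    show s ^ 2 * H k t (s⁻¹ • x) = 0
    rw [h2 k t _ h7, mul_zero]
  · rw [happ, (h3 k).1, smul_inv_smul₀ hs0]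
  · intro t x
    have hd : Differentiable ℝ (H k t) := by
      have h7 : ContDiff ℝ ((⊤ : ℕ∞) : WithTop ℕ∞)
          (fun y : E n => Function.uncurry (H k) (t, y)) :=
        (h1 k).comp (contDiff_const.prodMk contDiff_id)
      exact h7.differentiable (by simp)
    have h8 := ((h3 k).2 t (s⁻¹ • x)).const_smul s
    have h9 : XH (fun y => s ^ 2 * H k t (s⁻¹ • y)) (s • ψ k t (s⁻¹ • x))
        = s • XH (H k t) (ψ k t (s⁻¹ • x)) := by
      rw [Pool.Agent.Y419.HB.XH_scale (H k t) hd s hs0, inv_smul_smul₀ hs0]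
    have h10 : (fun r : ℝ => copy 0 s hs (ψ k r) x) = fun r => s • ψ k r (s⁻¹ • x) :=
      funext fun r => happ _ _
    rw [h10, happ, h9]
    exact h8
  · obtain ⟨m, hm⟩ := h4 (ε / s ^ 2) (by positivity)
    refine ⟨m, fun i hi j hj => ?_⟩
    have h7 : (fun (t : ℝ) (x : E n) => s ^ 2 * H i t (s⁻¹ • x) - s ^ 2 * H j t (s⁻¹ • x)) =
        fun t x => s ^ 2 * (fun (t : ℝ) (x : E n) => H i t x - H j t x) t (s⁻¹ • x) := by
      funext t x
      ring
    rw [h7, hofer_scale hs (fun (t : ℝ) (x : E n) => H i t x - H j t x)]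
    have h8 := hm i hi j hj
    rw [lt_div_iff₀ (by positivity)] at h8
    linarith
  · obtain ⟨m, hm⟩ := h5 (ε / s) (by positivity)
    refine ⟨m, fun k hk t ht x => ?_⟩
    rw [happ, happ, dist_smul₀, Real.norm_of_nonneg hs.le]
    have h8 := hm k hk t ht (s⁻¹ • x)
    rw [lt_div_iff₀ hs] at h8
    linarith
  · have h7 : (fun p : ℝ × E n => copy 0 s hs (Ψ p.1) p.2) =
        fun p => s • (fun p : ℝ × E n => Ψ p.1 p.2) (p.1, s⁻¹ • p.2) :=
      funext fun p => happ _ _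
    rw [h7]
    refine ContinuousOn.const_smul ?_ s
    refine h6.comp (by fun_prop) ?_
    rintro ⟨t, x⟩ ⟨ht, -⟩
    exact ⟨ht, mem_univ _⟩

open Pool.Agent.Y945.HB in
/-- the cut off rotations are hameomorphisms -/
theorem rot_hameo (m : E n) {c : ℝ} (hc0 : 0 < c) (hmc : N m + c < 1) :
    ∃ R : E n ≃ₜ E n, R ∈ hameo n ∧ ∀ x, N (x - m) ≤ c → R x = m + m - x := by
  set ρ : ℝ := (c + (1 - N m)) / 2 with hρ
  have hcρ : c < ρ := by rw [hρ]; linarith
  have hρ1 : ρ + N m < 1 := by rw [hρ]; linarith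
  have hρ0 : 0 < ρ := hc0.trans hcρ
  set q₂ : ℝ := ρ ^ 2 with hq₂
  set q₁ : ℝ := (c ^ 2 + ρ ^ 2) / 2 with hq₁
  have hcc : c ^ 2 < ρ ^ 2 := by nlinarith
  have h1 : c ^ 2 < q₁ := by rw [hq₁]; linarith
  have h2 : q₁ < q₂ := by rw [hq₁, hq₂]; linarith
  have h21 : 0 < q₂ - q₁ := by linarith
  -- the function
  set χ : ℝ → ℝ := fun q => Real.smoothTransition ((q₂ - q) / (q₂ - q₁)) with hχ
  set h : ℝ → ℝ := fun q => Real.pi / 2 * q * χ q with hh
  have hχs : ContDiff ℝ ((⊤ : ℕ∞) : WithTop ℕ∞) χ := by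
    rw [hχ]
    exact Real.smoothTransition.contDiff.comp
      ((contDiff_const.sub contDiff_id).div_const (q₂ - q₁))
  have hhs : ContDiff ℝ ((⊤ : ℕ∞) : WithTop ℕ∞) h := by
    rw [hh]
    exact (contDiff_const.mul contDiff_id).mul hχs
  have hhd : Differentiable ℝ h := hhs.differentiable (by simp)
  have hdc : Continuous (deriv h) := hhs.continuous_deriv (by
    exact_mod_cast le_top)
  have hgc : ∀ t : ℝ, Continuous (fun q => 2 * deriv h q * t) := fun t =>
    (hdc.const_mul 2).mul_const t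
  have hder : ∀ q, q < q₁ → 2 * deriv h q = Real.pi := by
    intro q hq
    have h3 : h =ᶠ[𝓝 q] fun q => Real.pi / 2 * q := by
      filter_upwards [Iio_mem_nhds hq] with y hy
      have h4 : χ y = 1 := by
        rw [hχ]
        apply Real.smoothTransition.one_of_one_le
        rw [le_div_iff₀ h21]
        have : y < q₁ := hy
        linarith
      show Real.pi / 2 * y * χ y = _
      rw [h4, mul_one]
    rw [h3.deriv_eq]
    have h5 : deriv (fun q : ℝ => Real.pi / 2 * q) q = Real.pi / 2 := by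
      simp
    rw [h5]; ring
  refine ⟨TW (fun q => 2 * deriv h q * 1) (hgc 1) m, ?_, ?_⟩
  · refine ⟨{x | N (x - m) ≤ ρ}, N_compact m ρ, ?_, fun _ _ y => h (Q (y - m)),
      fun _ t => TW (fun q => 2 * deriv h q * t) (hgc t) m,
      fun t => TW (fun q => 2 * deriv h q * t) (hgc t) m, fun _ => ?_, fun _ t x hx => ?_,
      fun _ => ⟨fun x => ?_, fun t x => ?_⟩, fun ε hε => ⟨0, fun _ _ _ _ => ?_⟩,
      fun ε hε => ⟨0, fun _ _ t _ x => ?_⟩, ?_, rfl⟩
    · intro x hx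
      have hx' : N (x - m) ≤ ρ := hx
      have h3 := N_add (x - m) m
      rw [sub_add_cancel] at h3
      exact N_lt_one.1 (by linarith)
    · exact hhs.comp (Pool.Agent.Y945.HB.Q_smooth.comp (contDiff_snd.sub contDiff_const))
    · have hx' : ρ < N (x - m) := not_le.1 hx
      have hx2 : q₂ < Q (x - m) := by
        rw [← N_sq]
        exact pow_lt_pow_left₀ hx' hρ0.le two_ne_zero
      show Real.pi / 2 * Q (x - m) * χ (Q (x - m)) = 0
      have h3 : χ (Q (x - m)) = 0 := by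
        rw [hχ]
        apply Real.smoothTransition.zero_of_nonpos
        apply div_nonpos_of_nonpos_of_nonneg _ h21.le
        linarith
      rw [h3, mul_zero]
    · show m + rt (2 * deriv h (Q (x - m)) * 0) (x - m) = x
      simp only [mul_zero, rt_zero, add_sub_cancel]
    · show HasDerivAt (fun s : ℝ => m + rt (2 * deriv h (Q (x - m)) * s) (x - m))
        (XH (fun y => h (Q (y - m))) (m + rt (2 * deriv h (Q (x - m)) * t) (x - m))) t
      rw [XH_eq hhd m]
      simp only [add_sub_cancel_left, Q_rt]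
      exact flow_deriv _ m (x - m) t
    · have h3 : (fun (_ : ℝ) (y : E n) => h (Q (y - m)) - h (Q (y - m))) = fun _ _ => (0 : ℝ) := by
        funext t y
        exact sub_self _
      rw [h3, hofer_zero]
      exact hε
    · rw [dist_self]
      exact hε
    · apply Continuous.continuousOn
      show Continuous fun p : ℝ × E n => m + rt (2 * deriv h (Q (p.2 - m)) * p.1) (p.2 - m)
      have h3 : Continuous fun p : ℝ × E n => p.2 - m := by fun_prop
      refine continuous_const.add (rt_cont ?_ h3)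
      exact ((hdc.comp (Pool.Agent.Y945.HB.Q_cont.comp h3)).const_mul 2).mul continuous_fst
  · intro x hx
    have h6 : Q (x - m) ≤ c ^ 2 := by
      rw [← N_sq]
      exact pow_le_pow_left₀ (N_nonneg _) hx 2
    show m + rt (2 * deriv h (Q (x - m)) * 1) (x - m) = m + m - x
    rw [hder _ (h6.trans_lt h1), mul_one, rt_pi]
    abel

theorem copy_one (p : E n) (r : ℝ) (hr : 0 < r) : copy p r hr 1 = 1 := by
  unfold copy
  group

theorem copy_inv (p : E n) (r : ℝ) (hr : 0 < r) (φ : E n ≃ₜ E n) :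
    copy p r hr φ⁻¹ = (copy p r hr φ)⁻¹ := by
  unfold copy
  group

/-- the group of hameomorphisms -/
theorem good_hameo : Good (Hameo n) where
  le := Hameo_le
  rot m c hc h := by
    obtain ⟨R, hR, hR'⟩ := rot_hameo m hc h
    exact ⟨R, Subgroup.subset_closure hR, hR'⟩
  dil s hs hs1 φ hφ := by
    unfold Hameo at hφ ⊢
    refine Subgroup.closure_induction
      (p := fun φ _ => copy 0 s hs φ ∈ Subgroup.closure (hameo n)) ?_ ?_ ?_ ?_ hφ
    · intro φ hφ
      exact Subgroup.subset_closure (hameo_dil hs hs1 hφ)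
    · rw [copy_one]
      exact one_mem _
    · intro a b _ _ ha hb
      rw [copy_mul]
      exact mul_mem ha hb
    · intro a _ ha
      rw [copy_inv]
      exact inv_mem ha

end Pool.Agent.Q271.HB.Gen
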