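import Pool.Agent.Q271.HB.Swi

/-!
# Hamiltonian homeomorphisms of the ball: the copies of the group in small balls
-/

set_option autoImplicit false

open Set Filter Topology Function

namespace Pool.Agent.Q271.HB

open Pool.Agent.Y453.HB Pool.Agent.Y496.HB

variable {n : ℕ}

theorem mem_iff' {φ : E n ≃ₜ E n} : φ ∈ HamBar n ↔ φ ∈ hamBar n := mem_iff hM hI hU

/-- the element `g` is the copy of `φ` in the ball with centre `p` and radius `r` -/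
def IsCopy (p : E n) (r : ℝ) (φ g : HamBar n) : Prop :=
  ∀ x : E n, (g : E n ≃ₜ E n) (p + r • x) = p + r • (φ : E n ≃ₜ E n) x

theorem isCopy_iff {p : E n} {r : ℝ} (hr : 0 < r) {φ g : HamBar n} :
    IsCopy p r φ g ↔ (g : E n ≃ₜ E n) = copy p r hr φ := by
  constructor
  · intro h
    refine Homeomorph.ext fun x => ?_
    have h1 := h (r⁻¹ • (x - p))
    rw [smul_smul, mul_inv_cancel₀ hr.ne', one_smul, add_sub_cancel] at h1
    rw [h1, copy_apply']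
  · intro h x
    rw [h, copy_apply]

/-- the copy of the group in the ball with centre `p` and radius `r` -/
def Loc (p : E n) (r : ℝ) : Subgroup (HamBar n) where
  carrier := {g | ∃ φ, IsCopy p r φ g}
  mul_mem' := by
    rintro a b ⟨φ, hφ⟩ ⟨ψ, hψ⟩
    refine ⟨φ * ψ, fun x => ?_⟩
    change (a : E n ≃ₜ E n) ((b : E n ≃ₜ E n) (p + r • x)) = _
    rw [hψ, hφ]
    rfl
  one_mem' := ⟨1, fun _ => rfl⟩
  inv_mem' := by
    rintro a ⟨φ, hφ⟩
    refine ⟨φ⁻¹, fun x => ?_⟩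
    change (a : E n ≃ₜ E n)⁻¹ (p + r • x) = p + r • (φ : E n ≃ₜ E n)⁻¹ x
    have h1 := hφ ((φ : E n ≃ₜ E n)⁻¹ x)
    rw [apply_inv_self] at h1
    rw [← h1, inv_apply_self]

theorem mem_Loc {p : E n} {r : ℝ} {g : HamBar n} : g ∈ Loc p r ↔ ∃ φ, IsCopy p r φ g := Iff.rfl

theorem exists_copy {p : E n} {r : ℝ} (hr : 0 < r) (h : N p + r < 1) (φ : HamBar n) :
    ∃ g, IsCopy p r φ g :=
  ⟨⟨copy p r hr φ, mem_iff'.2 (copy_mem hr h (mem_iff'.1 φ.2))⟩, (isCopy_iff hr).2 rfl⟩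

theorem IsCopy.unique {p : E n} {r : ℝ} (hr : 0 < r) {φ g g' : HamBar n} (h : IsCopy p r φ g)
    (h' : IsCopy p r φ g') : g = g' :=
  Subtype.ext (((isCopy_iff hr).1 h).trans ((isCopy_iff hr).1 h').symm)

theorem IsCopy.unique' {p : E n} {r : ℝ} (hr : 0 < r) {φ φ' g : HamBar n} (h : IsCopy p r φ g)
    (h' : IsCopy p r φ' g) : φ = φ' := by
  refine Subtype.ext (Homeomorph.ext fun x => ?_)
  have h1 := (h x).symm.trans (h' x)
  have h2 := add_left_cancel h1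
  exact smul_right_injective _ hr.ne' h2

theorem IsCopy.one {p : E n} {r : ℝ} : IsCopy p r (1 : HamBar n) 1 := fun _ => rfl

theorem copy_copy (q : E n) (ρ : ℝ) (hρ : 0 < ρ) (p : E n) (r : ℝ) (hr : 0 < r)
    (φ : E n ≃ₜ E n) :
    copy q ρ hρ (copy p r hr φ) = copy (q + ρ • p) (ρ * r) (mul_pos hρ hr) φ := by
  refine Homeomorph.ext fun x => ?_
  rw [copy_apply', copy_apply', copy_apply', smul_add, smul_smul, add_assoc]
  congr 4
  rw [mul_inv_rev, ← smul_smul]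
  congr 1
  rw [sub_add_eq_sub_sub, smul_sub ρ⁻¹ (x - q), smul_smul, inv_mul_cancel₀ hρ.ne', one_smul]

theorem copy_congr {p p' : E n} {r r' : ℝ} (hr : 0 < r) (hr' : 0 < r') (hp : p = p')
    (h : r = r') (φ : E n ≃ₜ E n) : copy p r hr φ = copy p' r' hr' φ := by
  subst hp
  subst h
  rfl

/-- a copy in a ball is a copy of a copy in a bigger ball -/
theorem copy_sub {p q : E n} {r ρ : ℝ} (hr : 0 < r) (hρ : 0 < ρ) (φ : E n ≃ₜ E n) :
    copy p r hr φ = copy q ρ hρ (copy (ρ⁻¹ • (p - q)) (ρ⁻¹ * r) (mul_pos (inv_pos.2 hρ) hr) φ) := by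
  rw [copy_copy]
  refine copy_congr _ _ ?_ ?_ φ
  · rw [smul_smul, mul_inv_cancel₀ hρ.ne', one_smul, add_sub_cancel]
  · rw [← mul_assoc, mul_inv_cancel₀ hρ.ne', one_mul]

theorem sub_cond {p q : E n} {r ρ : ℝ} (hρ : 0 < ρ) (h : N (p - q) + r < ρ) :
    N (ρ⁻¹ • (p - q)) + ρ⁻¹ * r < 1 := by
  rw [N_smul (inv_nonneg.2 hρ.le), ← mul_add, inv_mul_lt_iff₀ hρ, mul_one]
  exact h

theorem Loc_mono {p q : E n} {r ρ : ℝ} (hr : 0 < r) (h : N (p - q) + r < ρ) :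
    Loc p r ≤ Loc q ρ := by
  have hρ : 0 < ρ := by
    have := N_nonneg (p - q)
    linarith
  rintro g ⟨φ, hφ⟩
  refine ⟨⟨copy (ρ⁻¹ • (p - q)) (ρ⁻¹ * r) (mul_pos (inv_pos.2 hρ) hr) φ,
    mem_iff'.2 (copy_mem _ (sub_cond hρ h) (mem_iff'.1 φ.2))⟩, (isCopy_iff hρ).2 ?_⟩
  rw [(isCopy_iff hr).1 hφ]
  exact copy_sub hr hρ _

theorem Loc_mono' {p : E n} {r ρ : ℝ} (hr : 0 < r) (h : r ≤ ρ) : Loc p r ≤ Loc p ρ := by
  rcases h.lt_or_eq with h | h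
  · refine Loc_mono hr ?_
    rw [sub_self, N_zero]
    linarith
  · rw [h]

theorem Loc_supp {p : E n} {r : ℝ} (hr : 0 < r) {g : HamBar n} (h : g ∈ Loc p r) :
    (g : E n ≃ₜ E n) ∈ fixOff {x : E n | N (x - p) < r} := by
  obtain ⟨φ, hφ⟩ := h
  rw [(isCopy_iff hr).1 hφ]
  exact copy_supp p r hr (supp_of_mem (mem_iff'.1 φ.2))

/-- the copies in two disjoint balls commute -/
theorem Loc_comm {p q : E n} {r s : ℝ} (hr : 0 < r) (hs : 0 < s) (h : r + s ≤ N (p - q))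
    {a b : HamBar n} (ha : a ∈ Loc p r) (hb : b ∈ Loc q s) : a * b = b * a := by
  apply Subtype.ext
  refine comm ?_ (Loc_supp hr ha) (Loc_supp hs hb)
  rw [Set.disjoint_left]
  intro x h1 h2
  have h1' : N (x - p) < r := h1
  have h2' : N (x - q) < s := h2
  have h3 := N_sub (x - q) (x - p)
  have h4 : x - q - (x - p) = p - q := by abel
  rw [h4] at h3
  linarith

/-- moving balls with the same radius, with elements of a copy -/
theorem move {p q : E n} {r ρ : ℝ} (hr : 0 < r) (h : N (q - p) + r < ρ) (hp : N p + ρ < 1) :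
    ∃ τ ∈ Loc p ρ, ∀ φ a b, IsCopy p r φ a → IsCopy q r φ b → b = τ * a * τ⁻¹ := by
  have hρ : 0 < ρ := by
    have := N_nonneg (q - p)
    linarith
  obtain ⟨T, hT, hT'⟩ := trans (ρ⁻¹ • (q - p)) (mul_pos (inv_pos.2 hρ) hr) (sub_cond hρ h)
  have hTm : T ∈ hamBar n := ham_mem hT
  refine ⟨⟨copy p ρ hρ T, mem_iff'.2 (copy_mem hρ hp hTm)⟩,
    ⟨⟨T, mem_iff'.2 hTm⟩, (isCopy_iff hρ).2 rfl⟩, fun φ a b ha hb => ?_⟩
  apply Subtype.ext
  have hf := supp_of_mem (mem_iff'.1 φ.2)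
  have h1 := conj_trans (mul_pos (inv_pos.2 hρ) hr) hT' hf
  change (b : E n ≃ₜ E n) = copy p ρ hρ T * (a : E n ≃ₜ E n) * (copy p ρ hρ T)⁻¹
  rw [(isCopy_iff hr).1 ha, (isCopy_iff hr).1 hb, copy_sub (q := p) hr hρ, ← h1,
    copy_sub (p := p) (q := p) hr hρ, sub_self, smul_zero]
  unfold copy
  group

/-- moving balls with the same radius -/
theorem move' {p q : E n} {r : ℝ} (hr : 0 < r) (hp : N p + r < 1) (hq : N q + r < 1) :
    ∃ g : HamBar n, ∀ φ a b, IsCopy p r φ a → IsCopy q r φ b → b = g * a * g⁻¹ := by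
  have key : ∀ p : E n, N p + r < 1 → ∃ g : HamBar n, ∀ φ a b, IsCopy 0 r φ a →
      IsCopy p r φ b → b = g * a * g⁻¹ := by
    intro p hp
    obtain ⟨T, hT, hT'⟩ := trans p hr hp
    refine ⟨⟨T, mem_iff'.2 (ham_mem hT)⟩, fun φ a b ha hb => ?_⟩
    apply Subtype.ext
    have h1 := conj_trans hr hT' (supp_of_mem (mem_iff'.1 φ.2))
    change (b : E n ≃ₜ E n) = T * (a : E n ≃ₜ E n) * T⁻¹
    rw [(isCopy_iff hr).1 ha, (isCopy_iff hr).1 hb, h1]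
  obtain ⟨g, hg⟩ := key p hp
  obtain ⟨g', hg'⟩ := key q hq
  refine ⟨g' * g⁻¹, fun φ a b ha hb => ?_⟩
  obtain ⟨z, hz⟩ := exists_copy hr (show N (0 : E n) + r < 1 by
    rw [N_zero]
    have := N_nonneg p
    linarith) φ
  rw [hg' φ z b hz hb, hg φ z a hz ha]
  group

/-- a nontrivial normal subgroup contains the commutators of the copies in small balls -/
theorem commutators (M : Subgroup (HamBar n)) [hMn : M.Normal] (h : M ≠ ⊥) :
    ∃ ρ : ℝ, 0 < ρ ∧ ∀ r, 0 < r → r ≤ ρ → ∀ q : E n, N q + r < 1 → ∀ a ∈ Loc q r, ∀ b ∈ Loc q r,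
      a * b * a⁻¹ * b⁻¹ ∈ M := by
  obtain ⟨f, hf, hf1⟩ := M.bot_or_exists_ne_one.resolve_left h
  set F : E n ≃ₜ E n := (f : E n ≃ₜ E n) with hF
  obtain ⟨x₀, hx₀⟩ : ∃ x, F x ≠ x := by
    by_contra hc
    push Not at hc
    exact hf1 (Subtype.ext (Homeomorph.ext hc))
  have hx1 : N x₀ < 1 := by
    by_contra hc
    exact hx₀ (supp_of_mem (mem_iff'.1 f.2) x₀ hc)
  set D := N (F x₀ - x₀) with hD
  have hD0 : 0 < D := by
    refine lt_of_le_of_ne (N_nonneg _) fun hc => hx₀ ?_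
    exact sub_eq_zero.1 (N_eq_zero hc.symm)
  have hcont : Continuous fun x => N (F x - F x₀) :=
    N_cont.comp (F.continuous.sub continuous_const)
  have h0 : N (F x₀ - F x₀) < D / 2 := by
    rw [sub_self, N_zero]
    linarith
  obtain ⟨ε, hε, hball⟩ := Metric.isOpen_iff.1 (isOpen_lt hcont continuous_const) x₀ h0
  set ρ := min (min ε (D / 2)) ((1 - N x₀) / 2) with hρ
  have hρ0 : 0 < ρ := lt_min (lt_min hε (by linarith)) (by linarith)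
  have hρ1 : ρ ≤ ε := (min_le_left _ _).trans (min_le_left _ _)
  have hρ2 : ρ ≤ D / 2 := (min_le_left _ _).trans (min_le_right _ _)
  have hρ3 : ρ ≤ (1 - N x₀) / 2 := min_le_right _ _
  have hdis : ∀ x, N (x - x₀) < ρ → ρ ≤ N (F x - x₀) := by
    intro x hx
    have h1 : N (F x - F x₀) < D / 2 := by
      apply hball
      rw [Metric.mem_ball, dist_eq_norm]
      exact (norm_le_N _).trans_lt (hx.trans_le hρ1)
    have h2 := N_sub (F x - x₀) (F x - F x₀)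
    have h3 : F x - x₀ - (F x - F x₀) = F x₀ - x₀ := by abel
    rw [h3] at h2
    linarith
  refine ⟨ρ, hρ0, fun r hr hrρ q hq a ha b hb => ?_⟩
  have hx2 : N x₀ + r < 1 := by linarith
  obtain ⟨g, hg⟩ := move' (p := x₀) hr hx2 hq
  obtain ⟨φ, hφ⟩ := ha
  obtain ⟨ψ, hψ⟩ := hb
  obtain ⟨a', ha'⟩ := exists_copy hr hx2 φ
  obtain ⟨b', hb'⟩ := exists_copy hr hx2 ψ
  have hcomm : (f * a'⁻¹ * f⁻¹) * b' = b' * (f * a'⁻¹ * f⁻¹) := by
    apply Subtype.ext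
    have h1 : ((f * a'⁻¹ * f⁻¹ : HamBar n) : E n ≃ₜ E n) ∈
        fixOff {x : E n | N (F⁻¹ x - x₀) < r} := by
      intro x hx
      change F ((a' : E n ≃ₜ E n)⁻¹ (F⁻¹ x)) = x
      have h2 := inv_mem (Loc_supp hr ⟨φ, ha'⟩)
      rw [h2 (F⁻¹ x) hx, apply_inv_self]
    refine comm ?_ h1 (Loc_supp hr ⟨ψ, hb'⟩)
    rw [Set.disjoint_left]
    intro x h2 h3
    have h2' : N (F⁻¹ x - x₀) < r := h2
    have h3' : N (x - x₀) < r := h3
    have h4 := hdis _ (h2'.trans_le hrρ)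
    rw [apply_inv_self] at h4
    linarith
  have hk : a' * (f * a'⁻¹ * f⁻¹) ∈ M := by
    have h1 : a' * f * a'⁻¹ ∈ M := hMn.conj_mem f hf a'
    have h2 := M.mul_mem h1 (M.inv_mem hf)
    simpa only [mul_assoc] using h2
  have hk2 : a' * b' * a'⁻¹ * b'⁻¹ ∈ M := by
    set w := f * a'⁻¹ * f⁻¹ with hw
    have h1 : b' * (a' * w)⁻¹ * b'⁻¹ ∈ M := hMn.conj_mem _ (M.inv_mem hk) b'
    have h2 := M.mul_mem hk h1
    have h3 : a' * w * (b' * (a' * w)⁻¹ * b'⁻¹) = a' * b' * a'⁻¹ * b'⁻¹ := by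
      calc a' * w * (b' * (a' * w)⁻¹ * b'⁻¹) = a' * (w * b') * w⁻¹ * a'⁻¹ * b'⁻¹ := by group
        _ = a' * b' * a'⁻¹ * b'⁻¹ := by rw [hcomm]; group
    rwa [h3] at h2
  rw [hg φ a' a ha' hφ, hg ψ b' b hb' hψ]
  have h5 : g * a' * g⁻¹ * (g * b' * g⁻¹) * (g * a' * g⁻¹)⁻¹ * (g * b' * g⁻¹)⁻¹ =
      g * (a' * b' * a'⁻¹ * b'⁻¹) * g⁻¹ := by group
  rw [h5]
  exact hMn.conj_mem _ hk2 g

/-- the swindle -/
theorem swindleG (hn : 0 < n) (σ : ℕ → ℝ) (hσ : ∀ k, 0 < σ k) (hσ0 : σ 0 < 1)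
    (hσ1 : ∀ k, σ (k + 1) ≤ σ k / 2) : ∃ p : E n, N p = 3 / 4 ∧
    ∀ (φ : ℕ → HamBar n) (e : ℕ → ℤ), ∃ A B : ℕ → HamBar n, (∀ k, B k ∈ Loc 0 (σ k)) ∧
      (∀ k, IsCopy (σ k • p) (σ k / 8) (φ k) (A k)) ∧ ∀ k, B k = A k * B (k + 1) ^ e k := by
  obtain ⟨p, hp⟩ := exists_N (n := n) hn (show (0 : ℝ) ≤ 3 / 4 by norm_num)
  refine ⟨p, hp, fun φ e => ?_⟩
  have hσlt : ∀ k, σ k < 1 := by
    intro k
    induction k with
    | zero => exact hσ0
    | succ k ih => linarith [hσ1 k, hσ k]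
  obtain ⟨Φ, hΦ, hΦe⟩ := swindle hp (fun k => (φ k : E n ≃ₜ E n)) (fun k => mem_iff'.1 (φ k).2)
    (fun k => σ (k + 1) / σ k) (fun k => div_pos (hσ _) (hσ _))
    (fun k => by
      rw [div_le_iff₀ (hσ k)]
      linarith [hσ1 k]) e
  have h1 : ∀ k, N (0 : E n) + σ k < 1 := fun k => by
    rw [N_zero, zero_add]
    exact hσlt k
  have h2 : ∀ k, N (σ k • p) + σ k / 8 < 1 := fun k => by
    rw [N_smul (hσ k).le, hp]
    linarith [hσlt k, hσ k]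
  have h8 : ∀ k, 0 < σ k / 8 := fun k => by linarith [hσ k]
  choose A hA using fun k => exists_copy (h8 k) (h2 k) (φ k)
  choose B hB using fun k => exists_copy (hσ k) (h1 k) (⟨Φ k, mem_iff'.2 (hΦ k)⟩ : HamBar n)
  refine ⟨A, B, fun k => ⟨_, hB k⟩, hA, fun k => ?_⟩
  apply Subtype.ext
  change (B k : E n ≃ₜ E n) = (A k : E n ≃ₜ E n) * ((B (k + 1) ^ e k : HamBar n) : E n ≃ₜ E n)
  rw [Subgroup.coe_zpow, (isCopy_iff (hσ k)).1 (hB k), (isCopy_iff (h8 k)).1 (hA k),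
    (isCopy_iff (hσ (k + 1))).1 (hB (k + 1))]
  change copy 0 (σ k) (hσ k) (Φ k) = copy (σ k • p) (σ k / 8) (h8 k) (φ k) *
    copy 0 (σ (k + 1)) (hσ (k + 1)) (Φ (k + 1)) ^ e k
  rw [hΦe k, copy_mul, copy_copy, copy_copy, ← copy_zpow]
  congr 1
  · refine copy_congr _ _ ?_ ?_ _
    · rw [zero_add]
    · ring
  · refine copy_congr _ _ ?_ ?_ _
    · rw [smul_zero, add_zero]
    · rw [mul_div_cancel₀]
      exact (hσ k).ne'

end Pool.Agent.Q271.HB
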