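import Pool.Agent.Q271.HB.Loc

/-!
# Hamiltonian homeomorphisms of the ball: homomorphisms to small groups
-/

set_option autoImplicit false

open Set Filter Topology Function Cardinal

namespace Pool.Agent.Q271.HB

open Pool.Agent.Y453.HB Pool.Agent.Y496.HB

/-- a tree of different elements -/
theorem tree {Γ : Type} [Group Γ] (x : ℕ → Γ) (D : ℕ → Subgroup Γ) (hx : ∀ k, x k ∉ D (k + 1))
    (h : ∀ S : Set ℕ, ∃ β : ℕ → Γ, (∀ k, β (k + 1) ∈ D (k + 1)) ∧
      (∀ k ∈ S, β k = x k * β (k + 1)) ∧ ∀ k, k ∉ S → β k = β (k + 1)) :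
    continuum ≤ #Γ := by
  choose β h1 h2 h3 using h
  have hinj : Injective fun S : Set ℕ => β S 0 := by
    intro S T hST
    have hST' : β S 0 = β T 0 := hST
    by_contra hne
    have hex : ∃ k, ¬ (k ∈ S ↔ k ∈ T) := by
      by_contra hc
      push Not at hc
      exact hne (Set.ext hc)
    classical
    obtain ⟨k, hk, hmin⟩ : ∃ k, ¬ (k ∈ S ↔ k ∈ T) ∧ ∀ j < k, (j ∈ S ↔ j ∈ T) :=
      ⟨Nat.find hex, Nat.find_spec hex, fun j hj => not_not.1 (Nat.find_min hex hj)⟩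
    have heq : ∀ j ≤ k, β S j = β T j := by
      intro j
      induction j with
      | zero => intro _; exact hST'
      | succ j ih =>
        intro hj
        have h4 := ih (by omega)
        have h5 := hmin j (by omega)
        by_cases h6 : j ∈ S
        · rw [h2 S j h6, h2 T j (h5.1 h6)] at h4
          exact mul_left_cancel h4
        · rwa [h3 S j h6, h3 T j (fun h => h6 (h5.2 h))] at h4
    have hk2 := heq k le_rfl
    by_cases h6 : k ∈ S
    · have h7 : k ∉ T := fun h => hk (iff_of_true h6 h)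
      rw [h2 S k h6, h3 T k h7] at hk2
      apply hx k
      have h8 : x k = β T (k + 1) * (β S (k + 1))⁻¹ := by rw [← hk2]; group
      rw [h8]
      exact (D (k + 1)).mul_mem (h1 T k) ((D (k + 1)).inv_mem (h1 S k))
    · have h7 : k ∈ T := by
        by_contra h
        exact hk (iff_of_false h6 h)
      rw [h3 S k h6, h2 T k h7] at hk2
      apply hx k
      have h8 : x k = β S (k + 1) * (β T (k + 1))⁻¹ := by rw [hk2]; group
      rw [h8]
      exact (D (k + 1)).mul_mem (h1 S k) ((D (k + 1)).inv_mem (h1 T k))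
  calc continuum = #(Set ℕ) := by rw [mk_set, mk_nat, two_power_aleph0]
    _ ≤ #Γ := mk_le_of_injective hinj

/-- a commutative subgroup in which all systems `b k = a k * b (k + 1) ^ e k` are solvable and
which has less than continuum many elements has a divisible group of powers -/
theorem divisible {Γ : Type} [Group Γ] (hΓ : #Γ < continuum) (C : Subgroup Γ)
    (hC : ∀ x ∈ C, ∀ y ∈ C, x * y = y * x)
    (hcot : ∀ (a : ℕ → Γ) (e : ℕ → ℤ), (∀ k, a k ∈ C) → ∃ b : ℕ → Γ, (∀ k, b k ∈ C) ∧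
      ∀ k, b k = a k * b (k + 1) ^ e k) :
    ∃ d : ℕ, 0 < d ∧ ∀ m : ℕ, 0 < m → ∀ x ∈ C, ∃ y ∈ C, x ^ d = y ^ (d * m) := by
  by_contra hcon
  push Not at hcon
  choose! m hm z hz hzn using hcon
  -- the exponents
  let M : ℕ → ℕ := fun k => Nat.rec 1 (fun _ r => r * m r) k
  have hM0 : M 0 = 1 := rfl
  have hMs : ∀ k, M (k + 1) = M k * m (M k) := fun k => rfl
  have hMp : ∀ k, 0 < M k := by
    intro k
    induction k with
    | zero => rw [hM0]; exact one_pos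
    | succ k ih => rw [hMs]; exact Nat.mul_pos ih (hm _ ih)
  let D : ℕ → Subgroup Γ := fun k =>
    { carrier := {g | ∃ y ∈ C, g = y ^ M k}
      mul_mem' := by
        rintro _ _ ⟨y, hy, rfl⟩ ⟨w, hw, rfl⟩
        exact ⟨y * w, C.mul_mem hy hw, ((show Commute y w from hC y hy w hw).mul_pow _).symm⟩
      one_mem' := ⟨1, C.one_mem, (one_pow _).symm⟩
      inv_mem' := by
        rintro _ ⟨y, hy, rfl⟩
        exact ⟨y⁻¹, C.inv_mem hy, (inv_pow _ _).symm⟩ }
  refine absurd (tree (fun k => z (M k) ^ M k) D ?_ ?_) (not_le.2 hΓ)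
  · rintro k ⟨y, hy, hyk⟩
    rw [hMs] at hyk
    exact hzn (M k) (hMp k) y hy hyk
  · intro S
    classical
    obtain ⟨b, hb, hbe⟩ := hcot (fun k => if k ∈ S then z (M k) else 1)
      (fun k => (m (M k) : ℤ)) (fun k => by
        by_cases h : k ∈ S
        · simp only [h, if_true]
          exact hz _ (hMp k)
        · simp only [h, if_false]
          exact C.one_mem)
    refine ⟨fun k => b k ^ M k, fun k => ⟨b (k + 1), hb _, rfl⟩, fun k hk => ?_, fun k hk => ?_⟩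
    · have h1 := hbe k
      simp only [hk, if_true, zpow_natCast] at h1
      have h2 : Commute (z (M k)) (b (k + 1) ^ m (M k)) :=
        hC _ (hz _ (hMp k)) _ (C.pow_mem (hb _) _)
      show b k ^ M k = z (M k) ^ M k * b (k + 1) ^ M (k + 1)
      rw [h1, h2.mul_pow, ← pow_mul, hMs, mul_comm (m (M k))]
    · have h1 := hbe k
      simp only [hk, if_false, zpow_natCast, one_mul] at h1
      show b k ^ M k = b (k + 1) ^ M (k + 1)
      rw [h1, ← pow_mul, hMs, mul_comm (m (M k))]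

variable {n : ℕ}

/-- there are nontrivial elements -/
theorem exists_ne_one (hn : 0 < n) : ∃ φ : HamBar n, φ ≠ 1 := by
  obtain ⟨p, hp⟩ := exists_N (n := n) hn (show (0 : ℝ) ≤ 1 / 4 by norm_num)
  obtain ⟨T, hT, hT'⟩ := trans p (r := 1 / 4) (by norm_num) (by rw [hp]; norm_num)
  refine ⟨⟨T, mem_iff'.2 (ham_mem hT)⟩, fun h => ?_⟩
  have h1 : T = 1 := congrArg Subtype.val h
  have h2 := hT' 0 (by rw [N_zero]; norm_num)
  rw [h1, add_zero] at h2
  have h3 : (0 : E n) = p := h2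
  rw [← h3, N_zero] at hp
  norm_num at hp

/-- the group has at least continuum many elements -/
theorem card_ge (hn : 0 < n) : continuum ≤ #(HamBar n) := by
  obtain ⟨φ₀, hφ₀⟩ := exists_ne_one (n := n) hn
  set σ : ℕ → ℝ := fun k => (1 / 2) ^ (k + 1) with hσd
  have hσ : ∀ k, 0 < σ k := fun k => by positivity
  have hσ1 : ∀ k, σ (k + 1) ≤ σ k / 2 := fun k => by
    simp only [hσd]
    rw [pow_succ (1 / 2 : ℝ) (k + 1)]
    linarith
  obtain ⟨p, hp, hsw⟩ := swindleG hn σ hσ (by norm_num [hσd]) hσ1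
  obtain ⟨A₀, -, -, hA₀, -⟩ := hsw (fun _ => φ₀) (fun _ => 1)
  refine tree A₀ (fun k => Loc 0 (σ k)) ?_ ?_
  · intro k hk
    have h8 : 0 < σ k / 8 := by linarith [hσ k]
    have h1 := Loc_supp (hσ (k + 1)) hk
    apply hφ₀
    refine Subtype.ext (Homeomorph.ext fun x => ?_)
    have h2 := hA₀ k x
    by_cases hx : N x < 1
    · rw [h1] at h2
      · exact (smul_right_injective _ h8.ne' (add_left_cancel h2)).symm
      · simp only [mem_setOf_eq, not_lt, sub_zero]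
        have h3 := N_sub (σ k • p + (σ k / 8) • x) ((σ k / 8) • x)
        rw [add_sub_cancel_right, N_smul (hσ k).le, N_smul h8.le, hp] at h3
        have h4 := hσ1 k
        nlinarith [hσ k, N_nonneg x]
    · exact supp_of_mem (mem_iff'.1 φ₀.2) x hx
  · intro S
    classical
    obtain ⟨A, B, hB, hA, hAB⟩ := hsw (fun k => if k ∈ S then φ₀ else 1) (fun _ => 1)
    refine ⟨B, fun k => hB (k + 1), fun k hk => ?_, fun k hk => ?_⟩
    · have h1 := hAB k
      rw [zpow_one] at h1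
      have h2 := hA k
      simp only [hk, if_true] at h2
      rw [h1, h2.unique (by linarith [hσ k]) (hA₀ k)]
    · have h1 := hAB k
      rw [zpow_one] at h1
      have h2 := hA k
      simp only [hk, if_false] at h2
      rw [h1, h2.unique (by linarith [hσ k]) IsCopy.one, one_mul]

section hom

variable {Γ : Type} [Group Γ] (c : HamBar n →* Γ)

/-- the homomorphism is commutative on the copies in the balls with radius at most `ρ` -/
def AbScale (ρ : ℝ) : Prop := ∀ r, 0 < r → r ≤ ρ → ∀ q : E n, N q + r < 1 →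
  ∀ a ∈ Loc q r, ∀ b ∈ Loc q r, c a * c b = c b * c a

theorem exists_abScale (h : ¬ Injective c) : ∃ ρ : ℝ, 0 < ρ ∧ AbScale c ρ := by
  have h1 : c.ker ≠ ⊥ := fun h2 => h ((MonoidHom.ker_eq_bot_iff c).1 h2)
  obtain ⟨ρ, hρ, h2⟩ := commutators c.ker h1
  refine ⟨ρ, hρ, fun r hr hrρ q hq a ha b hb => ?_⟩
  have h3 := (MonoidHom.mem_ker).1 (h2 r hr hrρ q hq a ha b hb)
  rw [map_mul, map_mul, map_mul, map_inv, map_inv] at h3
  have h4 : c a * c b = c b * c a := by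
    calc c a * c b = (c a * c b * (c a)⁻¹ * (c b)⁻¹) * (c b * c a) := by group
      _ = c b * c a := by rw [h3, one_mul]
  exact h4

variable {c}

theorem AbScale.move {ρ : ℝ} (h : AbScale c ρ) {p q : E n} {r R : ℝ} (hr : 0 < r)
    (hR : N (q - p) + r < R) (hRρ : R ≤ ρ) (hp : N p + R < 1) {φ a b : HamBar n}
    (ha : IsCopy p r φ a) (hb : IsCopy q r φ b) : c a = c b := by
  have h0 := N_nonneg (q - p)
  have hR0 : 0 < R := by linarith
  obtain ⟨τ, hτ, hτ'⟩ := Q271.HB.move hr hR hp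
  have h1 := hτ' φ a b ha hb
  have h2 : a ∈ Loc p R := Loc_mono' hr (by linarith) ⟨φ, ha⟩
  have h3 := h R hR0 hRρ p hp τ hτ a h2
  rw [h1, map_mul, map_mul, map_inv, h3]
  group

/-- the image of the copy in the ball with centre `0` -/
def Im (c : HamBar n →* Γ) (r : ℝ) : Subgroup Γ := (Loc 0 r).map c

theorem mem_Im {r : ℝ} {x : Γ} : x ∈ Im c r ↔ ∃ a ∈ Loc (0 : E n) r, c a = x := Subgroup.mem_map

theorem Im_mono {r ρ : ℝ} (hr : 0 < r) (h : r ≤ ρ) : Im c r ≤ Im c ρ :=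
  Subgroup.map_mono (Loc_mono' hr h)

/-- the values on small elements commute with a given value -/
theorem AbScale.central (hn : 0 < n) {ρ : ℝ} (hρ : 0 < ρ) (h : AbScale c ρ) (g : HamBar n) :
    ∃ R : ℝ, 0 < R ∧ ∀ r, 0 < r → r ≤ R → ∀ x ∈ Im c r, x * c g = c g * x := by
  obtain ⟨K, hK, hK1, hK2, -⟩ := mem_iff'.1 g.2
  obtain ⟨η, hη, hη1, hηK⟩ : ∃ η : ℝ, 0 < η ∧ η < 1 ∧ ∀ x ∈ K, N x < 1 - η := by
    rcases K.eq_empty_or_nonempty with he | he
    · refine ⟨1 / 2, by norm_num, by norm_num, fun x hx => ?_⟩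
      rw [he] at hx
      exact absurd hx (Set.notMem_empty x)
    · obtain ⟨y, hy, hy'⟩ := hK.exists_isMaxOn he N_cont.continuousOn
      have h1 : N y < 1 := N_lt_one.2 (hK1 hy)
      have h2 := N_nonneg y
      refine ⟨(1 - N y) / 2, by linarith, by linarith, fun x hx => ?_⟩
      have h3 : N x ≤ N y := hy' hx
      linarith
  set R := min ρ (η / 4) with hR
  have hR0 : 0 < R := lt_min hρ (by linarith)
  have hRρ : R ≤ ρ := min_le_left _ _
  have hRη : R ≤ η / 4 := min_le_right _ _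
  obtain ⟨v, hv⟩ := exists_N (n := n) hn (show (0 : ℝ) ≤ 1 - η / 2 by linarith)
  obtain ⟨k, hk⟩ := exists_nat_gt (2 / R)
  have hk0 : (0 : ℝ) < k := lt_trans (by positivity) hk
  have hkR : 1 / (k : ℝ) < R / 2 := by
    rw [div_lt_iff₀ hk0]
    rw [div_lt_iff₀ hR0] at hk
    linarith
  refine ⟨R / 4, by linarith, fun r hr hrR x hx => ?_⟩
  obtain ⟨a, ⟨φ, ha⟩, rfl⟩ := mem_Im.1 hx
  -- the chain
  have hNi : ∀ i : ℕ, i ≤ k → N (((i : ℝ) / k) • v) ≤ 1 - η / 2 := by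
    intro i hi
    rw [N_smul (by positivity), hv]
    have h1 : (i : ℝ) / k ≤ 1 := (div_le_one hk0).2 (by exact_mod_cast hi)
    have h2 : (0 : ℝ) ≤ 1 - η / 2 := by linarith
    nlinarith
  have key : ∀ i : ℕ, i ≤ k → ∀ b, IsCopy (((i : ℝ) / k) • v) r φ b → c b = c a := by
    intro i
    induction i with
    | zero =>
      intro _ b hb
      rw [Nat.cast_zero, zero_div, zero_smul] at hb
      rw [hb.unique hr ha]
    | succ i ih =>
      intro hi b hb
      obtain ⟨b', hb'⟩ := exists_copy (p := ((i : ℝ) / k) • v) hr (by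
        have := hNi i (by omega)
        linarith) φ
      rw [← ih (by omega) b' hb']
      refine (h.move (R := R) hr ?_ hRρ ?_ hb' hb).symm
      · have h1 : (((i + 1 : ℕ) : ℝ) / k) • v - ((i : ℝ) / k) • v = (1 / (k : ℝ)) • v := by
          rw [← sub_smul]
          congr 1
          push_cast
          ring
        rw [h1, N_smul (by positivity), hv]
        have h2 : 1 / (k : ℝ) * (1 - η / 2) ≤ 1 / (k : ℝ) * 1 :=
          mul_le_mul_of_nonneg_left (by linarith) (by positivity)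
        linarith
      · have := hNi i (by omega)
        linarith
  obtain ⟨b, hb⟩ := exists_copy (p := (((k : ℕ) : ℝ) / k) • v) hr (by
    have := hNi k le_rfl
    linarith) φ
  have h1 := key k le_rfl b hb
  rw [div_self hk0.ne', one_smul] at hb
  have h2 : b * g = g * b := by
    apply Subtype.ext
    refine comm ?_ (Loc_supp hr ⟨φ, hb⟩) (show (g : E n ≃ₜ E n) ∈ fixOff K from hK2)
    rw [Set.disjoint_left]
    intro x hx1 hx2
    have hx1' : N (x - v) < r := hx1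
    have hx3 := hηK x hx2
    have hx4 := N_add (v - x) x
    rw [sub_add_cancel, N_sub_comm, hv] at hx4
    linarith
  rw [← h1, ← map_mul, ← map_mul, h2]

/-- the images of the small balls are eventually constant -/
theorem AbScale.stable (hn : 0 < n) (hΓ : #Γ < continuum) {ρ : ℝ} (hρ : 0 < ρ) (hρ1 : ρ < 1)
    (h : AbScale c ρ) : ∃ R : ℝ, 0 < R ∧ R ≤ ρ ∧ ∀ r, 0 < r → r ≤ R → Im c r = Im c R := by
  by_contra hcon
  push Not at hcon
  have hstep : ∀ σ : ℝ, 0 < σ ∧ σ ≤ ρ → ∃ r : ℝ, (0 < r ∧ r ≤ ρ) ∧ r ≤ σ / 8 ∧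
      ∃ φ a : HamBar n, IsCopy 0 (σ / 8) φ a ∧ c a ∉ Im c r := by
    rintro σ ⟨hσ, hσρ⟩
    obtain ⟨r, hr, hrσ, hne⟩ := hcon (σ / 8) (by linarith) (by linarith)
    have h1 : Im c r ≤ Im c (σ / 8) := Im_mono hr hrσ
    obtain ⟨x, hx, hx'⟩ := SetLike.exists_of_lt (lt_of_le_of_ne h1 hne)
    obtain ⟨a, ⟨φ, ha⟩, rfl⟩ := mem_Im.1 hx
    exact ⟨r, ⟨hr, by linarith⟩, hrσ, φ, a, ha, hx'⟩
  let next : {σ : ℝ // 0 < σ ∧ σ ≤ ρ} → {σ : ℝ // 0 < σ ∧ σ ≤ ρ} := fun σ =>
    ⟨(hstep σ.1 σ.2).choose, (hstep σ.1 σ.2).choose_spec.1⟩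
  have hnext : ∀ σ : {σ : ℝ // 0 < σ ∧ σ ≤ ρ}, (next σ).1 ≤ σ.1 / 8 ∧
      ∃ φ a : HamBar n, IsCopy 0 (σ.1 / 8) φ a ∧ c a ∉ Im c (next σ).1 := fun σ =>
    (hstep σ.1 σ.2).choose_spec.2
  let s : ℕ → {σ : ℝ // 0 < σ ∧ σ ≤ ρ} := fun k => Nat.rec ⟨ρ, hρ, le_rfl⟩ (fun _ σ => next σ) k
  have hs : ∀ k, s (k + 1) = next (s k) := fun k => rfl
  set σ : ℕ → ℝ := fun k => (s k).1 with hσd
  have hσ : ∀ k, 0 < σ k := fun k => (s k).2.1
  have hσρ : ∀ k, σ k ≤ ρ := fun k => (s k).2.2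
  have hlt : ∀ k, N (0 : E n) + σ k < 1 := fun k => by
    rw [N_zero]
    linarith [hσρ k]
  have hσ1 : ∀ k, σ (k + 1) ≤ σ k / 2 := fun k => by
    have h1 := (hnext (s k)).1
    have h2 := hσ k
    change (next (s k)).1 ≤ (s k).1 / 2
    change 0 < (s k).1 at h2
    linarith
  choose φ a ha hca using fun k => (hnext (s k)).2
  obtain ⟨p, hp, hsw⟩ := swindleG hn σ hσ (by linarith [hσρ 0]) hσ1
  refine absurd (tree (fun k => c (a k)) (fun k => Im c (σ k)) hca ?_) (not_le.2 hΓ)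
  intro S
  classical
  obtain ⟨A, B, hB, hA, hAB⟩ := hsw (fun k => if k ∈ S then φ k else 1) (fun _ => 1)
  refine ⟨fun k => c (B k), fun k => mem_Im.2 ⟨_, hB (k + 1), rfl⟩, fun k hk => ?_,
    fun k hk => ?_⟩
  · have h1 := hAB k
    rw [zpow_one] at h1
    have h2 := hA k
    simp only [hk, if_true] at h2
    have h3 : c (a k) = c (A k) := by
      refine h.move (R := σ k) (p := 0) (q := σ k • p) (by linarith [hσ k]) ?_ (hσρ k)
        (hlt k) (ha k) h2
      rw [sub_zero, N_smul (hσ k).le, hp]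
      linarith [hσ k]
    change c (B k) = c (a k) * c (B (k + 1))
    rw [h1, map_mul, h3]
  · have h1 := hAB k
    rw [zpow_one] at h1
    have h2 := hA k
    simp only [hk, if_false] at h2
    change c (B k) = c (B (k + 1))
    rw [h1, h2.unique (by linarith [hσ k]) IsCopy.one, one_mul]

/-- the systems `b k = a k * b (k + 1) ^ e k` are solvable -/
theorem AbScale.cotorsion (hn : 0 < n) {ρ : ℝ} (hρ1 : ρ < 1)
    (h : AbScale c ρ) {R : ℝ} (hR : 0 < R) (hRρ : R ≤ ρ) (hst : ∀ r, 0 < r → r ≤ R → Im c r = Im c R)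
    (x : ℕ → Γ) (e : ℕ → ℤ) (hx : ∀ k, x k ∈ Im c R) :
    ∃ b : ℕ → Γ, (∀ k, b k ∈ Im c R) ∧ ∀ k, b k = x k * b (k + 1) ^ e k := by
  set σ : ℕ → ℝ := fun k => R * (1 / 2) ^ k with hσd
  have hσ : ∀ k, 0 < σ k := fun k => by positivity
  have hσR : ∀ k, σ k ≤ R := fun k => by
    have h1 : ((1 : ℝ) / 2) ^ k ≤ 1 := pow_le_one₀ (by norm_num) (by norm_num)
    calc R * (1 / 2) ^ k ≤ R * 1 := mul_le_mul_of_nonneg_left h1 hR.le
      _ = R := mul_one R
  have hσ1 : ∀ k, σ (k + 1) ≤ σ k / 2 := fun k => by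
    simp only [hσd]
    rw [pow_succ (1 / 2 : ℝ) k]
    linarith
  have h8 : ∀ k, 0 < σ k / 8 := fun k => by linarith [hσ k]
  have hex : ∀ k, ∃ φ a : HamBar n, IsCopy 0 (σ k / 8) φ a ∧ c a = x k := by
    intro k
    have h1 := hx k
    rw [← hst (σ k / 8) (h8 k) (by linarith [hσR k, hσ k])] at h1
    obtain ⟨a, ⟨φ, ha⟩, hca⟩ := mem_Im.1 h1
    exact ⟨φ, a, ha, hca⟩
  choose φ a ha hca using hex
  obtain ⟨p, hp, hsw⟩ := swindleG hn σ hσ (by linarith [hσR 0]) hσ1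
  obtain ⟨A, B, hB, hA, hAB⟩ := hsw φ e
  refine ⟨fun k => c (B k), fun k => ?_, fun k => ?_⟩
  · rw [← hst (σ k) (hσ k) (hσR k)]
    exact mem_Im.2 ⟨_, hB k, rfl⟩
  · have h3 : c (a k) = c (A k) := by
      refine h.move (R := σ k) (p := 0) (q := σ k • p) (h8 k) ?_ ((hσR k).trans hRρ)
        (by rw [N_zero]; linarith [hσR k]) (ha k) (hA k)
      rw [sub_zero, N_smul (hσ k).le, hp]
      linarith [hσ k]
    change c (B k) = x k * c (B (k + 1)) ^ e k
    rw [hAB k, map_mul, map_zpow, ← h3, hca]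

/-- homomorphisms to groups with less than continuum many elements -/
theorem small (hn : 0 < n) (hΓ : #Γ < continuum) (c : HamBar n →* Γ) :
    ∃ (R : ℝ) (C : Subgroup Γ), 0 < R ∧ R < 1 ∧
      (∀ r, 0 < r → r ≤ R → ∀ q : E n, N q + r < 1 → (Loc q r).map c = C) ∧
      (∀ x ∈ C, ∀ g, x * c g = c g * x) ∧
      (∀ (a : ℕ → Γ) (e : ℕ → ℤ), (∀ k, a k ∈ C) → ∃ b : ℕ → Γ, (∀ k, b k ∈ C) ∧
        ∀ k, b k = a k * b (k + 1) ^ e k) ∧
      ∃ d : ℕ, 0 < d ∧ ∀ m : ℕ, 0 < m → ∀ x ∈ C, ∃ y ∈ C, x ^ d = y ^ (d * m) := by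
  have hinj : ¬ Injective c := fun h =>
    absurd ((card_ge hn).trans (mk_le_of_injective h)) (not_le.2 hΓ)
  obtain ⟨ρ₀, hρ₀, hab₀⟩ := exists_abScale c hinj
  set ρ := min ρ₀ (1 / 2) with hρd
  have hρ : 0 < ρ := lt_min hρ₀ (by norm_num)
  have hρ1 : ρ < 1 := (min_le_right _ _).trans_lt (by norm_num)
  have hab : AbScale c ρ := fun r hr hrρ => hab₀ r hr (hrρ.trans (min_le_left _ _))
  obtain ⟨R, hR, hRρ, hst⟩ := hab.stable hn hΓ hρ hρ1
  have hcot := hab.cotorsion hn hρ1 hR hRρ hst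
  have hcen : ∀ x ∈ Im c R, ∀ g, x * c g = c g * x := by
    intro x hx g
    obtain ⟨R', hR', hcen⟩ := hab.central hn hρ g
    have h1 : 0 < min R R' := lt_min hR hR'
    rw [← hst (min R R') h1 (min_le_left _ _)] at hx
    exact hcen _ h1 (min_le_right _ _) x hx
  have hcom : ∀ x ∈ Im c R, ∀ y ∈ Im c R, x * y = y * x := by
    intro x hx y hy
    obtain ⟨a, -, rfl⟩ := mem_Im.1 hy
    exact hcen x hx a
  refine ⟨R, Im c R, hR, by linarith, fun r hr hrR q hq => ?_, hcen, hcot,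
    divisible hΓ _ hcom hcot⟩
  rw [← hst r hr hrR]
  have h0 : N (0 : E n) + r < 1 := by
    rw [N_zero]
    linarith
  obtain ⟨g, hg⟩ := move' hr h0 hq
  have hval : ∀ φ a b, IsCopy 0 r φ a → IsCopy q r φ b → c b = c a := by
    intro φ a b ha hb
    have h1 : c a ∈ Im c R := by
      rw [← hst r hr hrR]
      exact mem_Im.2 ⟨a, ⟨φ, ha⟩, rfl⟩
    rw [hg φ a b ha hb, map_mul, map_mul, map_inv, ← hcen _ h1 g]
    group
  ext x
  rw [Subgroup.mem_map, mem_Im]
  constructor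
  · rintro ⟨b, ⟨φ, hb⟩, rfl⟩
    obtain ⟨a, ha⟩ := exists_copy hr h0 φ
    exact ⟨a, ⟨φ, ha⟩, (hval φ a b ha hb).symm⟩
  · rintro ⟨a, ⟨φ, ha⟩, rfl⟩
    obtain ⟨b, hb⟩ := exists_copy hr hq φ
    exact ⟨b, ⟨φ, hb⟩, hval φ a b ha hb⟩

end hom

end Pool.Agent.Q271.HB
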