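import Pool.Agent.Q271.HB.Geo

/-!
# Hamiltonian homeomorphisms of the ball: infinite nested products
-/

set_option autoImplicit false

open Set Filter Topology Function

namespace Pool.Agent.Q271.HB

open Pool.Agent.Y453.HB Pool.Agent.Y496.HB

variable {n : ℕ}

/-- the homeomorphisms which preserve the closed ball with radius `t` -/
def St (n : ℕ) (t : ℝ) : Subgroup (E n ≃ₜ E n) where
  carrier := {f | ∀ x, N (f x) ≤ t ↔ N x ≤ t}
  mul_mem' := by
    intro f g hf hg x
    rw [mul_apply]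
    exact (hf _).trans (hg _)
  one_mem' := fun x => Iff.rfl
  inv_mem' := by
    intro f hf x
    have h1 := hf (f⁻¹ x)
    rw [apply_inv_self] at h1
    exact h1.symm

/-- the relation: both preserve the ball with radius `t`, and are equal off it -/
def Rel (t : ℝ) (f g : E n ≃ₜ E n) : Prop := f ∈ St n t ∧ g ∈ St n t ∧ ∀ x, t < N x → f x = g x

theorem Rel.mul {t : ℝ} {f g f' g' : E n ≃ₜ E n} (h : Rel t f g) (h' : Rel t f' g') :
    Rel t (f * f') (g * g') := by
  refine ⟨mul_mem h.1 h'.1, mul_mem h.2.1 h'.2.1, fun x hx => ?_⟩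
  rw [mul_apply, mul_apply, ← h'.2.2 x hx]
  apply h.2.2
  have h1 := h'.1 x
  by_contra hc
  exact absurd (h1.1 (not_lt.1 hc)) (not_le.2 hx)

theorem Rel.inv {t : ℝ} {f g : E n ≃ₜ E n} (h : Rel t f g) : Rel t f⁻¹ g⁻¹ := by
  refine ⟨inv_mem h.1, inv_mem h.2.1, fun x hx => ?_⟩
  have h1 : t < N (f⁻¹ x) := by
    by_contra hc
    have h2 := (h.1 (f⁻¹ x)).2 (not_lt.1 hc)
    rw [apply_inv_self] at h2
    exact absurd h2 (not_le.2 hx)
  have h2 := h.2.2 _ h1
  rw [apply_inv_self] at h2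
  have h3 := inv_apply_self g (f⁻¹ x)
  rw [← h2] at h3
  exact h3.symm

theorem Rel.one {t : ℝ} : Rel t (1 : E n ≃ₜ E n) 1 := ⟨one_mem _, one_mem _, fun _ _ => rfl⟩

theorem Rel.pow {t : ℝ} {f g : E n ≃ₜ E n} (h : Rel t f g) (k : ℕ) : Rel t (f ^ k) (g ^ k) := by
  induction k with
  | zero =>
    rw [pow_zero, pow_zero]
    exact Rel.one
  | succ k ih =>
    rw [pow_succ, pow_succ]
    exact ih.mul h

theorem Rel.zpow {t : ℝ} {f g : E n ≃ₜ E n} (h : Rel t f g) (k : ℤ) : Rel t (f ^ k) (g ^ k) := by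
  rcases k with k | k
  · rw [Int.ofNat_eq_natCast, zpow_natCast, zpow_natCast]
    exact h.pow k
  · rw [zpow_negSucc, zpow_negSucc]
    exact (h.pow _).inv

theorem Rel.dist {t : ℝ} {f g : E n ≃ₜ E n} (h : Rel t f g) (ht : 0 ≤ t) (x : E n) :
    dist (f x) (g x) ≤ 2 * t := by
  by_cases hx : t < N x
  · rw [h.2.2 x hx, dist_self]
    linarith
  · have h1 := (h.1 x).2 (not_lt.1 hx)
    have h2 := (h.2.1 x).2 (not_lt.1 hx)
    rw [dist_eq_norm]
    refine (norm_sub_le _ _).trans ?_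
    have h3 := norm_le_N (f x)
    have h4 := norm_le_N (g x)
    linarith

theorem Rel.start {f g : E n ≃ₜ E n} (hf : f ∈ fixOff {x : E n | N x < 1})
    (hg : g ∈ fixOff {x : E n | N x < 1}) : Rel 1 f g := by
  have key : ∀ f : E n ≃ₜ E n, f ∈ fixOff {x : E n | N x < 1} → f ∈ St n 1 := by
    intro f hf x
    by_cases hx : N x < 1
    · have h1 : N (f x) < 1 := maps hf (x := x) hx
      exact iff_of_true h1.le hx.le
    · rw [hf x hx]
  refine ⟨key f hf, key g hg, fun x hx => ?_⟩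
  rw [hf x (not_lt.2 hx.le), hg x (not_lt.2 hx.le)]

theorem Rel.copy {t s : ℝ} (hs : 0 < s) {f g : E n ≃ₜ E n} (h : Rel t f g) :
    Rel (s * t) (copy 0 s hs f) (copy 0 s hs g) := by
  have key : ∀ f : E n ≃ₜ E n, f ∈ St n t → Q271.HB.copy 0 s hs f ∈ St n (s * t) := by
    intro f hf x
    have h1 := hf (s⁻¹ • x)
    rw [copy_apply', sub_zero, zero_add, N_smul hs.le, mul_le_mul_iff_right₀ hs, h1,
      N_smul (inv_nonneg.2 hs.le), inv_mul_le_iff₀ hs]
  refine ⟨key f h.1, key g h.2.1, fun x hx => ?_⟩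
  rw [copy_apply', copy_apply', sub_zero, h.2.2]
  rw [N_smul (inv_nonneg.2 hs.le), lt_inv_mul_iff₀ hs]
  exact hx

theorem Rel.far {p : E n} (hp : N p = 3 / 4) {t : ℝ} (ht : t ≤ 1 / 2) {φ : E n ≃ₜ E n}
    (h : φ ∈ fixOff {x : E n | N x < 1}) :
    Rel t (Q271.HB.copy p (1 / 8) (by norm_num) φ) (Q271.HB.copy p (1 / 8) (by norm_num) φ) := by
  have h0 : ∀ x, N x ≤ t → Q271.HB.copy p (1 / 8) (by norm_num) φ x = x := by
    intro x hx
    apply copy_supp p (1 / 8) (by norm_num) h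
    simp only [mem_setOf_eq, not_lt]
    have h1 := N_add (p - x) x
    rw [sub_add_cancel, hp, N_sub_comm] at h1
    linarith
  have key : Q271.HB.copy p (1 / 8) (by norm_num) φ ∈ St n t := by
    intro x
    constructor
    · intro hx
      have h1 := h0 _ hx
      have h2 := (Q271.HB.copy p (1 / 8) (by norm_num) φ).injective h1
      rwa [h2] at hx
    · intro hx
      rw [h0 x hx]
      exact hx
  exact ⟨key, key, fun _ _ => rfl⟩

theorem zpow_mem_hamBar {φ : E n ≃ₜ E n} (h : φ ∈ hamBar n) (e : ℤ) : φ ^ e ∈ hamBar n :=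
  (mem_iff hM hI hU).1 ((HamBar n).zpow_mem ((mem_iff hM hI hU).2 h) e)

/-- the finite products -/
noncomputable def W (p : E n) (φ : ℕ → (E n ≃ₜ E n)) (s : ℕ → ℝ) (hs : ∀ k, 0 < s k) (e : ℕ → ℤ) :
    ℕ → ℕ → (E n ≃ₜ E n)
  | 0, _ => 1
  | j + 1, k => copy p (1 / 8) (by norm_num) (φ k) * copy 0 (s k) (hs k) (W p φ s hs e j (k + 1) ^ e k)

/-- the radii -/
noncomputable def tt (s : ℕ → ℝ) : ℕ → ℕ → ℝ
  | 0, _ => 1
  | j + 1, k => s k * tt s j (k + 1)

theorem tt_pos {s : ℕ → ℝ} (hs : ∀ k, 0 < s k) (j k : ℕ) : 0 < tt s j k := by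
  induction j generalizing k with
  | zero => exact one_pos
  | succ j ih => exact mul_pos (hs k) (ih (k + 1))

theorem tt_le {s : ℕ → ℝ} (hs : ∀ k, 0 < s k) (hs1 : ∀ k, s k ≤ 1 / 2) (j k : ℕ) :
    tt s j k ≤ (1 / 2) ^ j := by
  induction j generalizing k with
  | zero => exact le_of_eq (pow_zero _).symm
  | succ j ih =>
    rw [pow_succ']
    exact mul_le_mul (hs1 k) (ih (k + 1)) (tt_pos hs _ _).le (by norm_num)

theorem one_mem_hamBar : (1 : E n ≃ₜ E n) ∈ hamBar n := ham_mem (hI n).1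

/-- the infinite nested product -/
theorem swindle {p : E n} (hp : N p = 3 / 4) (φ : ℕ → (E n ≃ₜ E n)) (hφ : ∀ k, φ k ∈ hamBar n)
    (s : ℕ → ℝ) (hs : ∀ k, 0 < s k) (hs1 : ∀ k, s k ≤ 1 / 2) (e : ℕ → ℤ) :
    ∃ Φ : ℕ → (E n ≃ₜ E n), (∀ k, Φ k ∈ hamBar n) ∧
      ∀ k, Φ k = copy p (1 / 8) (by norm_num) (φ k) * copy 0 (s k) (hs k) (Φ (k + 1) ^ e k) := by
  set K : Set (E n) := {x | N (x - 0) ≤ 7 / 8} with hK
  have hKc : IsCompact K := N_compact 0 _
  have hK1 : ∀ x ∈ K, N x < 1 := by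
    intro x hx
    have hx' : N (x - 0) ≤ 7 / 8 := hx
    rw [sub_zero] at hx'
    linarith
  have hW : ∀ j k, W p φ s hs e j k ∈ hamK K := by
    intro j
    induction j with
    | zero =>
      intro k
      refine ⟨fun _ _ => rfl, fun _ => 1, fun _ _ _ => rfl, fun _ => (hI n).1, ?_⟩
      rw [Metric.tendstoUniformly_iff]
      intro ε hε
      exact Eventually.of_forall fun _ x => by
        change dist x x < ε
        rwa [dist_self]
    | succ j ih =>
      intro k
      refine hamK_mul hKc (copy_hamK _ (by rw [hp]; norm_num) (fun x hx => ?_) (hφ k))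
        (copy_hamK _ ?_ (fun x hx => ?_) (zpow_mem_hamBar (hamBar_of hKc hK1 (ih (k + 1))) (e k)))
      · have h3 := N_add (x - p) p
        rw [sub_add_cancel, hp] at h3
        change N (x - 0) ≤ 7 / 8
        rw [sub_zero]
        linarith
      · rw [N_zero]
        linarith [hs1 k]
      · change N (x - 0) ≤ 7 / 8
        linarith [hs1 k]
  have hWb : ∀ j k, W p φ s hs e j k ∈ hamBar n := fun j k => hamBar_of hKc hK1 (hW j k)
  have hrel : ∀ j M k, j ≤ M → Rel (tt s j k) (W p φ s hs e j k) (W p φ s hs e M k) := by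
    intro j
    induction j with
    | zero =>
      intro M k _
      exact Rel.start (supp_of_mem (hWb 0 k)) (supp_of_mem (hWb M k))
    | succ j ih =>
      intro M k hM
      obtain ⟨M, rfl⟩ : ∃ M', M = M' + 1 := ⟨M - 1, by omega⟩
      have h1 := (ih M (k + 1) (by omega)).zpow (e k)
      have h2 := h1.copy (hs k)
      refine (Rel.far hp ?_ (supp_of_mem (hφ k))).mul h2
      calc s k * tt s j (k + 1) ≤ 1 / 2 * 1 := by
            refine mul_le_mul (hs1 k) ?_ (tt_pos hs _ _).le (by norm_num)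
            exact (tt_le hs hs1 j (k + 1)).trans (pow_le_one₀ (by norm_num) (by norm_num))
        _ = 1 / 2 := by norm_num
  have hlim : ∀ k, ∃ Φ : E n ≃ₜ E n, TendstoUniformly
      (fun (j : ℕ) (x : E n) => W p φ s hs e j k x) (fun x => Φ x) atTop := by
    intro k
    refine exists_lim (fun j => W p φ s hs e j k) (fun j => 2 * (1 / 2) ^ j) ?_ ?_ ?_
    · have := (tendsto_pow_atTop_nhds_zero_of_lt_one (r := (1 / 2 : ℝ)) (by norm_num)
        (by norm_num)).const_mul 2
      simpa using this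
    · intro m M x hmM
      have h1 := (hrel m M k hmM).dist (tt_pos hs _ _).le x
      have h2 := tt_le hs hs1 m k
      linarith
    · intro m M x hmM
      have h1 := (hrel m M k hmM).inv.dist (tt_pos hs _ _).le x
      have h2 := tt_le hs hs1 m k
      linarith
  choose Φ hΦ using hlim
  have hΦK : ∀ k, Φ k ∈ hamK K := fun k => hamK_lim (fun j => hW j k) (hΦ k)
  have hΦU : ∀ k, UConv (fun j => W p φ s hs e j k) (Φ k) := fun k =>
    uconv_of hU hKc (hΦK k).1 (hΦ k)
  refine ⟨Φ, fun k => hamBar_of hKc hK1 (hΦK k), fun k => ?_⟩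
  have h1 : UConv (fun j => W p φ s hs e (j + 1) k)
      (copy p (1 / 8) (by norm_num) (φ k) * copy 0 (s k) (hs k) (Φ (k + 1) ^ e k)) := by
    have hc : UConv (fun _ : ℕ => copy p (1 / 8) (by norm_num) (φ k))
        (copy p (1 / 8) (by norm_num) (φ k)) := by
      obtain ⟨L, hL, hL1, hL2, -⟩ := hφ k
      apply copy_uconv
      refine uconv_of hU hL hL2 ?_
      rw [Metric.tendstoUniformly_iff]
      intro ε hε
      exact Eventually.of_forall fun _ x => by rwa [dist_self]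
    exact (hU n).1 _ _ _ _ hc (copy_uconv (hs k) ((hU n).2.2.1 _ _ (hΦU (k + 1)) (e k)))
  refine Homeomorph.ext fun x => ?_
  have h2 := (hΦ k).tendsto_at x
  have h3 := h1.1.tendsto_at x
  exact tendsto_nhds_unique ((tendsto_add_atTop_iff_nat 1).2 h2) h3

end Pool.Agent.Q271.HB
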